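import Mathlib

/-!
Generic injectivity of linear systems with polynomial coefficients, read off a degeneration.
-/

set_option autoImplicit false

namespace Pool.Agent.Lib.MP_9d4c03_ag

open Filter Topology Matrix MvPolynomial

variable {n : ℕ}

/-- the one-parameter degeneration -/
noncomputable def xs (h : Fin n → ℝ) (s : ℝ) : Fin n → ℂ := fun i => (Real.exp (-h i * s) : ℝ)

/-- `F` is a linear form in the variables `K` with polynomial coefficients and initial form `F₀` -/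
def Adm (h : Fin n → ℝ) {κ : Type} (K : Finset κ) (γ : κ → ℝ) (α : ℝ)
    (F : (Fin n → ℂ) → (κ → ℂ) → ℂ) (F₀ : (κ → ℂ) → ℂ) : Prop :=
  ∃ (P : κ → MvPolynomial (Fin n) ℂ) (m : κ → ℂ),
    (∀ x u, F x u = ∑ c ∈ K, eval x (P c) * u c) ∧ (∀ u, F₀ u = ∑ c ∈ K, m c * u c) ∧
    ∀ c ∈ K, Tendsto (fun s : ℝ => ((Real.exp ((γ c - α) * s) : ℝ) : ℂ) * eval (xs h s) (P c))
      atTop (𝓝 (m c))

variable {h : Fin n → ℝ} {κ : Type} {K : Finset κ} {γ : κ → ℝ} {α : ℝ}

lemma Adm.zero : Adm h K γ α (fun _ _ => 0) (fun _ => 0) :=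
  ⟨0, 0, by simp, by simp, by simp⟩

lemma Adm.add {F G : (Fin n → ℂ) → (κ → ℂ) → ℂ} {F₀ G₀ : (κ → ℂ) → ℂ}
    (hF : Adm h K γ α F F₀) (hG : Adm h K γ α G G₀) :
    Adm h K γ α (fun x u => F x u + G x u) (fun u => F₀ u + G₀ u) := by
  obtain ⟨P, m, h1, h2, h3⟩ := hF
  obtain ⟨P', m', h1', h2', h3'⟩ := hG
  refine ⟨P + P', m + m', fun x u => ?_, fun u => ?_, fun c hc => ?_⟩
  · simp [h1, h1', add_mul, Finset.sum_add_distrib]
  · simp [h2, h2', add_mul, Finset.sum_add_distrib]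
  · simpa [mul_add] using (h3 c hc).add (h3' c hc)

lemma Adm.sum {τ : Type} (T : Finset τ) {F : τ → (Fin n → ℂ) → (κ → ℂ) → ℂ}
    {F₀ : τ → (κ → ℂ) → ℂ} (hF : ∀ t ∈ T, Adm h K γ α (F t) (F₀ t)) :
    Adm h K γ α (fun x u => ∑ t ∈ T, F t x u) (fun u => ∑ t ∈ T, F₀ t u) := by
  classical
  induction T using Finset.induction_on with
  | empty => simpa using Adm.zero
  | insert a T ha ih =>
    simp only [Finset.sum_insert ha]
    exact (hF a (Finset.mem_insert_self _ _)).add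
      (ih fun t ht => hF t (Finset.mem_insert_of_mem ht))

lemma Adm.congr {F G : (Fin n → ℂ) → (κ → ℂ) → ℂ} {F₀ G₀ : (κ → ℂ) → ℂ}
    (hF : Adm h K γ α F F₀) (e : ∀ x u, G x u = F x u) (e₀ : ∀ u, G₀ u = F₀ u) :
    Adm h K γ α G G₀ := by
  have h1 : G = F := by funext x u; exact e x u
  have h2 : G₀ = F₀ := funext e₀
  rw [h1, h2]; exact hF

lemma Adm.term {c₀ : κ} (hc : c₀ ∈ K) (a : ℂ) (e : Finset (Fin n)) {l : ℝ}
    (hl : Tendsto (fun s : ℝ => Real.exp ((γ c₀ - α - ∑ i ∈ e, h i) * s)) atTop (𝓝 l)) :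
    Adm h K γ α (fun x u => a * (∏ i ∈ e, x i) * u c₀) (fun u => a * l * u c₀) := by
  classical
  refine ⟨Pi.single c₀ (C a * ∏ i ∈ e, X i), Pi.single c₀ (a * l), fun x u => ?_, fun u => ?_,
    fun c _ => ?_⟩
  · rw [Finset.sum_eq_single c₀ (fun b _ hb => by simp [hb]) (fun hh => (hh hc).elim)]
    simp
  · rw [Finset.sum_eq_single c₀ (fun b _ hb => by simp [hb]) (fun hh => (hh hc).elim)]
    simp
  · by_cases hcc : c = c₀
    · subst hcc
      simp only [Pi.single_eq_same, map_mul, eval_C, map_prod, eval_X]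
      have := ((Complex.continuous_ofReal.tendsto l).comp hl).const_mul a
      refine this.congr fun s => ?_
      simp only [Function.comp, xs]
      rw [← Complex.ofReal_prod, ← Real.exp_sum, mul_left_comm, ← Complex.ofReal_mul,
        ← Real.exp_add]
      congr 3
      rw [← Finset.sum_mul, Finset.sum_neg_distrib]
      ring
    · simp [hcc]

lemma Adm.term_eq {c₀ : κ} (hc : c₀ ∈ K) (a : ℂ) (e : Finset (Fin n))
    (hw : γ c₀ = α + ∑ i ∈ e, h i) :
    Adm h K γ α (fun x u => a * (∏ i ∈ e, x i) * u c₀) (fun u => a * u c₀) := by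
  have := Adm.term (h := h) (γ := γ) (α := α) hc a e (l := 1) (by
    have : γ c₀ - α - ∑ i ∈ e, h i = 0 := by rw [hw]; ring
    simp [this])
  simpa using this

lemma Adm.term_lt {c₀ : κ} (hc : c₀ ∈ K) (a : ℂ) (e : Finset (Fin n))
    (hw : γ c₀ < α + ∑ i ∈ e, h i) :
    Adm h K γ α (fun x u => a * (∏ i ∈ e, x i) * u c₀) (fun _ => 0) := by
  have := Adm.term (h := h) (γ := γ) (α := α) hc a e (l := 0)
    (Real.tendsto_exp_atBot.comp (tendsto_id.const_mul_atTop_of_neg (by linarith)))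
  simpa using this

theorem generic_inj {ρ : Type} (R : Finset ρ) (α : ρ → ℝ)
    {F : ρ → (Fin n → ℂ) → (κ → ℂ) → ℂ} {F₀ : ρ → (κ → ℂ) → ℂ}
    (hF : ∀ j ∈ R, Adm h K γ (α j) (F j) (F₀ j))
    (hinj : ∀ u, (∀ j ∈ R, F₀ j u = 0) → ∀ c ∈ K, u c = 0) :
    ∃ E : MvPolynomial (Fin n) ℂ, E ≠ 0 ∧ ∀ x, eval x E ≠ 0 →
      ∀ u, (∀ j ∈ R, F j x u = 0) → ∀ c ∈ K, u c = 0 := by
  classical
  choose! P m h1 h2 h3 using hF
  let M₀ : Matrix R K ℂ := Matrix.of fun j c => m j c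
  have hM₀ : LinearMap.ker (Matrix.toLin' M₀) = ⊥ := by
    rw [LinearMap.ker_eq_bot']
    intro u hu
    have := hinj (Function.extend Subtype.val u 0) fun j hj => by
      rw [h2 j hj, ← Finset.sum_coe_sort K]
      have := congrFun hu ⟨j, hj⟩
      simpa [M₀, Matrix.mulVec, dotProduct, Subtype.val_injective.extend_apply] using this
    funext c
    simpa [Subtype.val_injective.extend_apply] using this c c.2
  obtain ⟨N', hN'⟩ := LinearMap.exists_leftInverse_of_injective _ hM₀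
  let N : Matrix K R ℂ := LinearMap.toMatrix' N'
  have hN : N * M₀ = 1 := by
    apply Matrix.toLin'.injective
    rw [Matrix.toLin'_mul, Matrix.toLin'_toMatrix', hN', Matrix.toLin'_one]
  let A : ℝ → Matrix R K ℂ := fun s => Matrix.of fun j c =>
    ((Real.exp ((γ c - α j) * s) : ℝ) : ℂ) * eval (xs h s) (P j c)
  have hA : Tendsto A atTop (𝓝 M₀) :=
    tendsto_pi_nhds.2 fun j => tendsto_pi_nhds.2 fun c => h3 j j.2 c c.2
  have hc : Continuous fun B : Matrix R K ℂ => (N * B).det :=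
    (continuous_const.matrix_mul continuous_id).matrix_det
  have hlim := (hc.tendsto M₀).comp hA
  rw [hN, Matrix.det_one] at hlim
  obtain ⟨s, hs⟩ := (hlim.eventually_ne one_ne_zero).exists
  let Q : Matrix R K (MvPolynomial (Fin n) ℂ) := Matrix.of fun j c =>
    C ((Real.exp ((γ c - α j) * s) : ℝ) : ℂ) * P j c
  let NQ : Matrix K K (MvPolynomial (Fin n) ℂ) := Matrix.of fun a b => ∑ j, C (N a j) * Q j b
  have hQ : ∀ x, eval x NQ.det = (N * Q.map (eval x) : Matrix K K ℂ).det := by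
    intro x
    rw [RingHom.map_det, RingHom.mapMatrix_apply]
    congr 1
    ext a b
    simp [NQ, Matrix.mul_apply]
  refine ⟨NQ.det, fun h0 => hs ?_, fun x hx u hu c hc => ?_⟩
  · have := hQ (xs h s)
    rw [h0, map_zero] at this
    simp only [Function.comp]
    rw [this]
    congr 2
    ext a b
    simp [A, Q]
  · rw [hQ] at hx
    let u' : K → ℂ := fun c => ((Real.exp (-γ c * s) : ℝ) : ℂ) * u c
    have h4 : (Q.map (eval x)).mulVec u' = 0 := by
      funext j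
      have h5 := hu j j.2
      rw [h1 j j.2, ← Finset.sum_coe_sort K] at h5
      have h6 : (Q.map (eval x)).mulVec u' j =
          ((Real.exp (-α j * s) : ℝ) : ℂ) * ∑ c : K, eval x (P j c) * u c := by
        simp only [Matrix.mulVec, dotProduct, Matrix.map_apply, Q, Matrix.of_apply, map_mul, eval_C,
          u', Finset.mul_sum]
        refine Finset.sum_congr rfl fun c _ => ?_
        have : Real.exp (-α j * s) = Real.exp ((γ c - α j) * s) * Real.exp (-γ c * s) := by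
          rw [← Real.exp_add]; congr 1; ring
        rw [this]; push_cast; ring
      rw [h6, h5, mul_zero]; rfl
    have h7 : u' = 0 := Matrix.eq_zero_of_mulVec_eq_zero hx (by
      rw [← Matrix.mulVec_mulVec, h4, Matrix.mulVec_zero])
    have h8 := congrFun h7 ⟨c, hc⟩
    simpa [u'] using h8

lemma generic_all {τ : Type} (T : Finset τ) (Q : τ → (Fin n → ℂ) → Prop)
    (hQ : ∀ t ∈ T, ∃ E : MvPolynomial (Fin n) ℂ, E ≠ 0 ∧ ∀ x, eval x E ≠ 0 → Q t x) :
    ∃ E : MvPolynomial (Fin n) ℂ, E ≠ 0 ∧ ∀ x, eval x E ≠ 0 → ∀ t ∈ T, Q t x := by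
  choose! E h1 h2 using hQ
  refine ⟨∏ t ∈ T, E t, Finset.prod_ne_zero_iff.2 h1, fun x hx t ht => h2 t ht x ?_⟩
  rw [map_prod] at hx
  exact Finset.prod_ne_zero_iff.1 hx t ht

lemma generic_and {Q Q' : (Fin n → ℂ) → Prop}
    (hQ : ∃ E : MvPolynomial (Fin n) ℂ, E ≠ 0 ∧ ∀ x, eval x E ≠ 0 → Q x)
    (hQ' : ∃ E : MvPolynomial (Fin n) ℂ, E ≠ 0 ∧ ∀ x, eval x E ≠ 0 → Q' x) :
    ∃ E : MvPolynomial (Fin n) ℂ, E ≠ 0 ∧ ∀ x, eval x E ≠ 0 → Q x ∧ Q' x := by
  obtain ⟨E, h1, h2⟩ := hQ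
  obtain ⟨E', h1', h2'⟩ := hQ'
  refine ⟨E * E', mul_ne_zero h1 h1', fun x hx => ?_⟩
  rw [map_mul] at hx
  exact ⟨h2 x (left_ne_zero_of_mul hx), h2' x (right_ne_zero_of_mul hx)⟩

end Pool.Agent.Lib.MP_9d4c03_ag
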