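import Mathlib

/-!
Better behaved GKZ systems and the pairing of Borisov and Han. The lattice is `N = ℤ^r`.
-/

set_option autoImplicit false

namespace Pool.Agent.Lib.MP_9d4c03_ag

open Filter Topology

/-- A lattice point seen in `N_ℝ`. -/
def toR {r : ℕ} (c : Fin r → ℤ) : Fin r → ℝ := fun k => (c k : ℝ)

/-- The cone `σ_I = ∑_{i ∈ I} ℝ_{≥ 0} v_i`; the cone `C` is the case `I = univ`. -/
def coneOn {r n : ℕ} (v : Fin n → Fin r → ℤ) (I : Finset (Fin n)) : Set (Fin r → ℝ) :=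
  {y | ∃ a : Fin n → ℝ, (∀ i, 0 ≤ a i) ∧ y = ∑ i ∈ I, a i • toR (v i)}

/-- `w` lies in no subspace spanned by fewer than `r` of the `v_i`. -/
def GeneralPosition {r n : ℕ} (v : Fin n → Fin r → ℤ) (w : Fin r → ℝ) : Prop :=
  ∀ J : Finset (Fin n), J.card < r → w ∉ Submodule.span ℝ ((fun i => toR (v i)) '' (J : Set (Fin n)))

/-- `Vol_I`, the absolute value of the determinant of `(v_i)_{i ∈ I}`, for `|I| = r`. -/
def vol {r n : ℕ} (v : Fin n → Fin r → ℤ) (I : Finset (Fin n)) : ℕ :=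
  if h : I.card = r then
    (Matrix.det (Matrix.of fun a b : Fin r => v (I.orderEmbOfFin h a) b)).natAbs
  else 0

open Classical in
/-- The coefficient `ξ_{c,d,I}`. -/
noncomputable def xi {r n : ℕ} (v : Fin n → Fin r → ℤ) (deg : (Fin r → ℤ) →ₗ[ℤ] ℤ)
    (w : Fin r → ℝ) (c d : Fin r → ℤ) (I : Finset (Fin n)) : ℂ :=
  if Submodule.span ℝ (coneOn v I) = ⊤ ∧
      ∀ᶠ ε in 𝓝[>] (0 : ℝ), toR c + ε • w ∈ interior (coneOn v I) ∧
        toR d - ε • w ∈ interior (coneOn v I)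
  then (-1 : ℂ) ^ (deg c) else 0

/-- The derivative `∂_i f` at `x`. -/
noncomputable def pd {n : ℕ} (i : Fin n) (f : (Fin n → ℂ) → ℂ) (x : Fin n → ℂ) : ℂ :=
  fderiv ℂ f x (Pi.single i 1)

/-- `Φ = (Φ_c)`, `c` running over the lattice points of `S`, is a holomorphic solution on `U` of
`bbGKZ(S, β)`. -/
def IsSolution {r n : ℕ} (v : Fin n → Fin r → ℤ) (S : Set (Fin r → ℝ)) (β : Fin r → ℂ)
    (U : Set (Fin n → ℂ)) (Φ : (Fin r → ℤ) → (Fin n → ℂ) → ℂ) : Prop :=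
  ∀ c : Fin r → ℤ, toR c ∈ S →
    DifferentiableOn ℂ (Φ c) U ∧
    (∀ x ∈ U, ∀ i, pd i (Φ c) x = Φ (c + v i) x) ∧
    ∀ x ∈ U, ∀ μ : Fin r → ℤ,
      (∑ k, (μ k : ℂ) * ((c k : ℂ) - β k)) * Φ c x +
        ∑ i, ((∑ k, μ k * v i k : ℤ) : ℂ) * x i * pd i (Φ c) x = 0

/-- The value at `x` of the pairing `⟨Φ, Ψ⟩`. -/
noncomputable def pairing {r n : ℕ} (v : Fin n → Fin r → ℤ) (deg : (Fin r → ℤ) →ₗ[ℤ] ℤ)
    (w : Fin r → ℝ) (Φ Ψ : (Fin r → ℤ) → (Fin n → ℂ) → ℂ) (x : Fin n → ℂ) : ℂ :=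
  ∑ I ∈ Finset.powersetCard r (Finset.univ : Finset (Fin n)),
    ∑ᶠ c ∈ {c : Fin r → ℤ | toR c ∈ coneOn v Finset.univ ∧
        toR (∑ i ∈ I, v i - c) ∈ interior (coneOn v Finset.univ)},
      xi v deg w c (∑ i ∈ I, v i - c) I * (vol v I : ℂ) * (∏ i ∈ I, x i) *
        Φ c x * Ψ (∑ i ∈ I, v i - c) x

/-- The family `Φ` vanishes on `U` at all lattice points of `S`. -/
def VanishesOn {r n : ℕ} (S : Set (Fin r → ℝ)) (U : Set (Fin n → ℂ))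
    (Φ : (Fin r → ℤ) → (Fin n → ℂ) → ℂ) : Prop :=
  ∀ c : Fin r → ℤ, toR c ∈ S → ∀ x ∈ U, Φ c x = 0

end Pool.Agent.Lib.MP_9d4c03_ag
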