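import Mathlib
import Pool.Agent.Lib.MP_9d4c03_ag.Defs

/-!
Bases, coordinates and the regular triangulation attached to generic heights.
-/

set_option autoImplicit false

namespace Pool.Agent.Lib.MP_9d4c03_ag

open Filter Topology Matrix

variable {r n : ℕ}

lemma toR_add (c d : Fin r → ℤ) : toR (c + d) = toR c + toR d := by ext k; simp [toR]

lemma toR_sub (c d : Fin r → ℤ) : toR (c - d) = toR c - toR d := by ext k; simp [toR]

lemma toR_sum {ι : Type} (s : Finset ι) (f : ι → Fin r → ℤ) :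
    toR (∑ i ∈ s, f i) = ∑ i ∈ s, toR (f i) := by ext k; simp [toR, Finset.sum_apply]

lemma toR_nsmul (m : ℕ) (c : Fin r → ℤ) : toR (m • c) = (m : ℝ) • toR c := by ext k; simp [toR]

lemma toR_inj {c d : Fin r → ℤ} (h : toR c = toR d) : c = d := by
  ext k; have := congrFun h k; simpa [toR] using this

/-- `r`-element index sets -/
abbrev Sub (r n : ℕ) : Type := {I : Finset (Fin n) // I.card = r}

/-- increasing enumeration -/
def emb (I : Sub r n) (a : Fin r) : Fin n := I.1.orderEmbOfFin I.2 a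

lemma emb_inj (I : Sub r n) : Function.Injective (emb I) := (I.1.orderEmbOfFin I.2).injective

lemma emb_mem (I : Sub r n) (a : Fin r) : emb I a ∈ I.1 := Finset.orderEmbOfFin_mem _ _ _

lemma exists_emb {I : Sub r n} {i : Fin n} (h : i ∈ I.1) : ∃ a, emb I a = i := by
  have := Finset.range_orderEmbOfFin I.1 I.2
  have h2 : i ∈ Set.range (I.1.orderEmbOfFin I.2) := by rw [this]; exact h
  exact h2

lemma sum_emb {M : Type} [AddCommMonoid M] (I : Sub r n) (f : Fin n → M) :
    ∑ a, f (emb I a) = ∑ i ∈ I.1, f i := by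
  conv_rhs => rw [← Finset.image_orderEmbOfFin_univ I.1 I.2]
  rw [Finset.sum_image (fun a _ b _ h => (I.1.orderEmbOfFin I.2).injective h)]
  rfl

variable (v : Fin n → Fin r → ℤ)

/-- integer matrix of an index set -/
def mat (I : Sub r n) : Matrix (Fin r) (Fin r) ℤ := Matrix.of fun a b => v (emb I a) b

/-- real matrix of an index set -/
def matR (I : Sub r n) : Matrix (Fin r) (Fin r) ℝ := (Int.castRingHom ℝ).mapMatrix (mat v I)

/-- the index set is a basis -/
def IsB (I : Sub r n) : Prop := (mat v I).det ≠ 0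

/-- coordinates with respect to a basis -/
noncomputable def co (I : Sub r n) : (Fin r → ℝ) →ₗ[ℝ] (Fin r → ℝ) :=
  Matrix.vecMulLinear (matR v I)⁻¹

variable {v}

lemma det_matR (I : Sub r n) : (matR v I).det = ((mat v I).det : ℝ) := by
  unfold matR; rw [← RingHom.map_det]; simp

lemma IsB.isUnit {I : Sub r n} (h : IsB v I) : IsUnit (matR v I).det := by
  rw [det_matR, isUnit_iff_ne_zero]; exact_mod_cast h

lemma vecMul_matR (I : Sub r n) (g : Fin r → ℝ) :
    g ᵥ* matR v I = ∑ a, g a • toR (v (emb I a)) := by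
  ext b
  simp [Matrix.vecMul, dotProduct, matR, mat, toR, Finset.sum_apply]

lemma co_sum {I : Sub r n} (h : IsB v I) (y : Fin r → ℝ) :
    ∑ a, co v I y a • toR (v (emb I a)) = y := by
  rw [← vecMul_matR]
  simp only [co, Matrix.vecMulLinear_apply, Matrix.vecMul_vecMul]
  rw [Matrix.nonsing_inv_mul _ h.isUnit, Matrix.vecMul_one]

lemma co_unique {I : Sub r n} (h : IsB v I) (g : Fin r → ℝ) :
    co v I (∑ a, g a • toR (v (emb I a))) = g := by
  rw [← vecMul_matR]
  simp only [co, Matrix.vecMulLinear_apply, Matrix.vecMul_vecMul]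
  rw [Matrix.mul_nonsing_inv _ h.isUnit, Matrix.vecMul_one]

lemma co_emb {I : Sub r n} (h : IsB v I) (a : Fin r) :
    co v I (toR (v (emb I a))) = Pi.single a 1 := by
  rw [← co_unique h (Pi.single a 1)]
  congr 1
  simp [Pi.single_apply, Finset.sum_ite_eq']

lemma co_vI {I : Sub r n} (h : IsB v I) (a : Fin r) : co v I (toR (∑ i ∈ I.1, v i)) a = 1 := by
  rw [toR_sum, ← sum_emb I (fun i => toR (v i))]
  have := co_unique h (fun _ => (1 : ℝ))
  simp only [one_smul] at this
  rw [this]

lemma co_apply (I : Sub r n) (y : Fin r → ℝ) (a : Fin r) :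
    co v I y a = ∑ k, y k * (matR v I)⁻¹ k a := by
  simp [co, Matrix.vecMul, dotProduct]

lemma co_int {I : Sub r n} (h : IsB v I) (c : Fin r → ℤ) (a : Fin r) :
    ∃ z : ℤ, co v I (toR c) a * ((mat v I).det : ℝ) = z := by
  refine ⟨(c ᵥ* (mat v I).adjugate) a, ?_⟩
  have hd : ((mat v I).det : ℝ) ≠ 0 := by exact_mod_cast h
  rw [co_apply, Matrix.inv_def, det_matR, Ring.inverse_eq_inv', matR, ← RingHom.map_adjugate]
  generalize (mat v I).det = D at hd
  generalize (mat v I).adjugate = A
  simp only [Matrix.smul_apply, smul_eq_mul, Finset.sum_mul, Matrix.vecMul, dotProduct]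
  push_cast
  refine Finset.sum_congr rfl fun k _ => ?_
  simp only [RingHom.mapMatrix_apply, Matrix.map_apply, toR, eq_intCast]
  field_simp

variable (v)

/-- strictly positive coordinates -/
def Pos (I : Sub r n) (y : Fin r → ℝ) : Prop := ∀ a, 0 < co v I y a

/-- no coordinate vanishes in any basis -/
def Generic (y : Fin r → ℝ) : Prop := ∀ I, IsB v I → ∀ a, co v I y a ≠ 0

/-- the linear function taking the value `h i` at `v i`, `i ∈ I` -/
noncomputable def psi (h : Fin n → ℝ) (I : Sub r n) (y : Fin r → ℝ) : ℝ :=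
  ∑ a, co v I y a * h (emb I a)

/-- maximal cones of the regular triangulation -/
def Good (h : Fin n → ℝ) (I : Sub r n) : Prop :=
  IsB v I ∧ ∀ i, i ∉ I.1 → psi v h I (toR (v i)) < h i

/-- generic heights -/
def GenH (h : Fin n → ℝ) : Prop := ∀ I, IsB v I → ∀ i, i ∉ I.1 → psi v h I (toR (v i)) ≠ h i

variable {v}

lemma psi_add (h : Fin n → ℝ) (I : Sub r n) (y z : Fin r → ℝ) :
    psi v h I (y + z) = psi v h I y + psi v h I z := by
  simp [psi, add_mul, Finset.sum_add_distrib]

lemma psi_sum {ι : Type} (h : Fin n → ℝ) (I : Sub r n) (s : Finset ι) (g : ι → ℝ)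
    (y : ι → Fin r → ℝ) : psi v h I (∑ i ∈ s, g i • y i) = ∑ i ∈ s, g i * psi v h I (y i) := by
  simp only [psi, map_sum, map_smul, Finset.sum_apply, Pi.smul_apply, smul_eq_mul,
    Finset.sum_mul, Finset.mul_sum]
  rw [Finset.sum_comm]
  simp [mul_assoc]

lemma psi_emb {I : Sub r n} (hB : IsB v I) (h : Fin n → ℝ) (a : Fin r) :
    psi v h I (toR (v (emb I a))) = h (emb I a) := by
  simp [psi, co_emb hB, Pi.single_apply]

lemma psi_mem {I : Sub r n} (hB : IsB v I) (h : Fin n → ℝ) {i : Fin n} (hi : i ∈ I.1) :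
    psi v h I (toR (v i)) = h i := by
  obtain ⟨a, rfl⟩ := exists_emb hi
  exact psi_emb hB h a

lemma psi_vI {I : Sub r n} (hB : IsB v I) (h : Fin n → ℝ) :
    psi v h I (toR (∑ i ∈ I.1, v i)) = ∑ i ∈ I.1, h i := by
  simp [psi, co_vI hB, sum_emb]

lemma Good.le {h : Fin n → ℝ} {I : Sub r n} (hI : Good v h I) (i : Fin n) :
    psi v h I (toR (v i)) ≤ h i := by
  by_cases hi : i ∈ I.1
  · exact (psi_mem hI.1 h hi).le
  · exact (hI.2 i hi).le

lemma psi_lt {h : Fin n → ℝ} {I J : Sub r n} (hJ : Good v h J) (hI : IsB v I) {y : Fin r → ℝ}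
    (hy : Pos v I y) (hne : I ≠ J) : psi v h J y < psi v h I y := by
  have e : psi v h J y = ∑ a, co v I y a * psi v h J (toR (v (emb I a))) := by
    conv_lhs => rw [← co_sum hI y]
    rw [psi_sum]
  rw [e]
  have hex : ∃ a, emb I a ∉ J.1 := by
    by_contra hh
    push Not at hh
    apply hne
    apply Subtype.ext
    refine Finset.eq_of_subset_of_card_le ?_ (by rw [I.2, J.2])
    intro i hi
    obtain ⟨a, rfl⟩ := exists_emb hi
    exact hh a
  obtain ⟨a, ha⟩ := hex
  refine Finset.sum_lt_sum (fun b _ => mul_le_mul_of_nonneg_left (hJ.le _) (hy b).le)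
    ⟨a, Finset.mem_univ _, mul_lt_mul_of_pos_left (hJ.2 _ ha) (hy a)⟩

lemma psi_le {h : Fin n → ℝ} {I J : Sub r n} (hJ : Good v h J) (hI : IsB v I) {y : Fin r → ℝ}
    (hy : Pos v I y) : psi v h J y ≤ psi v h I y := by
  by_cases hne : I = J
  · rw [hne]
  · exact (psi_lt hJ hI hy hne).le

lemma good_unique {h : Fin n → ℝ} {I J : Sub r n} (hI : Good v h I) (hJ : Good v h J)
    {y : Fin r → ℝ} (hy : Pos v I y) (hy' : Pos v J y) : I = J := by
  by_contra hne
  have h1 := psi_lt hJ hI.1 hy hne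
  have h2 := psi_le hI hJ.1 hy'
  linarith

lemma exists_genH : ∃ h : Fin n → ℝ, GenH v h := by
  classical
  let f : Sub r n × Fin n → (Fin n → ℝ) →ₗ[ℝ] ℝ := fun q =>
    (∑ a, co v q.1 (toR (v q.2)) a • LinearMap.proj (emb q.1 a)) - LinearMap.proj q.2
  have hf : ∀ q h, f q h = psi v h q.1 (toR (v q.2)) - h q.2 := by
    intro q h; simp [f, psi]
  let s : Finset (Submodule ℝ (Fin n → ℝ)) :=
    (Finset.univ.filter fun q : Sub r n × Fin n => q.2 ∉ q.1.1).image fun q => LinearMap.ker (f q)
  have hs : ⊤ ∉ s := by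
    intro hh
    obtain ⟨q, hq, e⟩ := Finset.mem_image.1 hh
    have hq' := (Finset.mem_filter.1 hq).2
    have h1 : (Pi.single q.2 1 : Fin n → ℝ) ∈ LinearMap.ker (f q) := by rw [e]; trivial
    rw [LinearMap.mem_ker, hf] at h1
    have h2 : psi v (Pi.single q.2 1) q.1 (toR (v q.2)) = 0 := by
      refine Finset.sum_eq_zero fun a _ => ?_
      have : emb q.1 a ≠ q.2 := fun h => hq' (h ▸ emb_mem q.1 a)
      simp [this]
    rw [h2] at h1
    simp at h1
  have := Subspace.biUnion_ne_univ_of_top_notMem hs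
  obtain ⟨h, hh⟩ := (Set.ne_univ_iff_exists_notMem _).1 this
  refine ⟨h, fun I _ i hi e => hh ?_⟩
  refine Set.mem_biUnion (x := LinearMap.ker (f (I, i)))
    (Finset.mem_coe.2 (Finset.mem_image.2 ⟨(I, i), by simp [hi], rfl⟩)) ?_
  simp [hf, e]

lemma exists_step {a z : Fin n → ℝ} (ha : ∀ i, 0 ≤ a i) (hz : ∀ i, a i = 0 → 0 ≤ z i) :
    ∃ δ : ℝ, 0 < δ ∧ ∀ i, 0 ≤ a i + δ * z i := by
  have : ∀ᶠ δ in 𝓝[>] (0 : ℝ), ∀ i, 0 ≤ a i + δ * z i := by
    rw [eventually_all]
    intro i
    rcases (ha i).eq_or_lt with h | h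
    · filter_upwards [self_mem_nhdsWithin] with δ hδ
      have := hz i h.symm
      rw [← h, zero_add]
      exact mul_nonneg (le_of_lt hδ) this
    · have hc : Continuous fun δ : ℝ => a i + δ * z i := by fun_prop
      have h2 : ∀ᶠ δ in 𝓝 (0 : ℝ), 0 < a i + δ * z i :=
        hc.continuousAt.eventually (lt_mem_nhds (by simpa using h))
      exact (h2.filter_mono nhdsWithin_le_nhds).mono fun δ hδ => hδ.le
  obtain ⟨δ, h1, h2⟩ := (this.and self_mem_nhdsWithin).exists
  exact ⟨δ, h2, h1⟩

lemma exists_basis_superset (hspan : Submodule.span ℝ (Set.range fun i => toR (v i)) = ⊤)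
    {J : Set (Fin n)} (hJ : LinearIndepOn ℝ (fun i => toR (v i)) J) :
    ∃ I : Sub r n, IsB v I ∧ J ⊆ I.1 := by
  classical
  obtain ⟨b, -, hJb, hb, hli⟩ := exists_linearIndepOn_extension hJ (Set.subset_univ J)
  have htop : Submodule.span ℝ ((fun i => toR (v i)) '' b) = ⊤ := by
    rw [eq_top_iff, ← hspan, Submodule.span_le, ← Set.image_univ]
    exact hb
  have hcard : b.toFinset.card = r := by
    have h1 : Module.finrank ℝ (Submodule.span ℝ (Set.range fun i : b => toR (v i))) =
        Fintype.card b := finrank_span_eq_card hli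
    rw [← Set.image_eq_range (fun i => toR (v i)) b, htop] at h1
    simpa using h1.symm
  refine ⟨⟨b.toFinset, hcard⟩, ?_, by simpa using hJb⟩
  set I : Sub r n := ⟨b.toFinset, hcard⟩
  have h2 : LinearIndependent ℝ (matR v I).row := by
    have h3 := hli.comp (fun a : Fin r => (⟨emb I a, by simpa [I] using emb_mem I a⟩ : b))
      (fun a a' h => emb_inj I (by simpa using h))
    exact h3
  rw [Matrix.linearIndependent_rows_iff_isUnit, Matrix.isUnit_iff_isUnit_det, det_matR,
    isUnit_iff_ne_zero] at h2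
  exact_mod_cast h2

theorem exists_good {δ : (Fin r → ℝ) →ₗ[ℝ] ℝ} (hδ : ∀ i, δ (toR (v i)) = 1)
    (hspan : Submodule.span ℝ (Set.range fun i => toR (v i)) = ⊤) {h : Fin n → ℝ}
    (hh : GenH v h) {y : Fin r → ℝ} (hy : y ∈ coneOn v Finset.univ) (hg : Generic v y) :
    ∃ I, Good v h I ∧ Pos v I y := by
  classical
  let A : (Fin n → ℝ) →ₗ[ℝ] (Fin r → ℝ) := Fintype.linearCombination ℝ fun i => toR (v i)
  have hA : ∀ a, A a = ∑ i, a i • toR (v i) := fun a => Fintype.linearCombination_apply _ _ _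
  let cost : (Fin n → ℝ) →ₗ[ℝ] ℝ := Fintype.linearCombination ℝ h
  have hcost : ∀ a, cost a = ∑ i, a i * h i := fun a => Fintype.linearCombination_apply _ _ _
  let K : Set (Fin n → ℝ) := {a | (∀ i, 0 ≤ a i) ∧ A a = y}
  have hAc : Continuous A := A.continuous_of_finiteDimensional
  have hcc : Continuous cost := cost.continuous_of_finiteDimensional
  have hKc : IsClosed K := by
    refine IsClosed.inter ?_ (isClosed_eq hAc continuous_const)
    exact isClosed_Ici (a := (0 : Fin n → ℝ))
  have hK : IsCompact K := by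
    refine (isCompact_Icc (a := (0 : Fin n → ℝ)) (b := fun _ => δ y)).of_isClosed_subset hKc ?_
    rintro a ⟨h1, h2⟩
    refine ⟨h1, fun i => ?_⟩
    rw [← h2, hA, map_sum]
    simp only [map_smul, hδ, smul_eq_mul, mul_one]
    exact Finset.single_le_sum (fun j _ => h1 j) (Finset.mem_univ i)
  have hKne : K.Nonempty := by
    obtain ⟨a, h1, h2⟩ := hy
    exact ⟨a, h1, by rw [hA, h2]⟩
  obtain ⟨a₀, ha₀, hmin₀⟩ := hK.exists_isMinOn hKne hcc.continuousOn
  let F : Set (Fin n → ℝ) := K ∩ {a | cost a = cost a₀}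
  have hF : IsCompact F := hK.inter_right (isClosed_eq hcc continuous_const)
  obtain ⟨a, haF, hext⟩ := hF.extremePoints_nonempty ⟨a₀, ha₀, rfl⟩
  have hnn : ∀ i, 0 ≤ a i := haF.1.1
  have hmove : ∀ z : Fin n → ℝ, A z = 0 → (∀ i, a i = 0 → 0 ≤ z i) → 0 ≤ cost z := by
    intro z hz1 hz2
    obtain ⟨t, ht, h3⟩ := exists_step hnn hz2
    have hm : a + t • z ∈ K := ⟨h3, by rw [map_add, map_smul, hz1, smul_zero, add_zero, haF.1.2]⟩
    have := hmin₀ hm
    simp only [Set.mem_ofPred_eq, map_add, map_smul, smul_eq_mul] at this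
    have h4 : cost a = cost a₀ := haF.2
    rw [h4] at this
    by_contra hneg
    push Not at hneg
    nlinarith
  have hli : LinearIndepOn ℝ (fun i => toR (v i)) {i | a i ≠ 0} := by
    rw [linearIndepOn_iff]
    intro l hl hl0
    have hsupp : ∀ i, a i = 0 → l i = 0 := by
      intro i hi
      by_contra hne
      exact (Finsupp.mem_supported ℝ l).1 hl (Finsupp.mem_support_iff.2 hne) hi
    have hAl : A l = 0 := by
      rw [hA, ← hl0, Finsupp.linearCombination_apply, Finsupp.sum_fintype]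
      simp
    have c1 := hmove l hAl (fun i hi => (hsupp i hi).ge)
    have c2 := hmove (-l) (by rw [map_neg, hAl, neg_zero]) (fun i hi => by simp [hsupp i hi])
    have c3 : cost l = 0 := by rw [map_neg] at c2; linarith
    obtain ⟨t, ht, h3⟩ := exists_step (z := fun i => -|l i|) hnn (fun i hi => by simp [hsupp i hi])
    have m1 : a + t • (l : Fin n → ℝ) ∈ F := by
      refine ⟨⟨fun i => ?_, by rw [map_add, map_smul, hAl, smul_zero, add_zero, haF.1.2]⟩, ?_⟩
      · have := h3 i
        have h5 := mul_le_mul_of_nonneg_left (neg_abs_le (l i)) ht.le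
        simp only [Pi.add_apply, Pi.smul_apply, smul_eq_mul]
        linarith
      · show cost _ = _
        rw [map_add, map_smul, c3, smul_zero, add_zero]; exact haF.2
    have m2 : a - t • (l : Fin n → ℝ) ∈ F := by
      refine ⟨⟨fun i => ?_, by rw [map_sub, map_smul, hAl, smul_zero, sub_zero, haF.1.2]⟩, ?_⟩
      · have := h3 i
        have h5 := mul_le_mul_of_nonneg_left (le_abs_self (l i)) ht.le
        simp only [Pi.sub_apply, Pi.smul_apply, smul_eq_mul]
        linarith
      · show cost _ = _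
        rw [map_sub, map_smul, c3, smul_zero, sub_zero]; exact haF.2
    have h6 := hext m1 m2 ⟨1 / 2, 1 / 2, by norm_num, by norm_num, by norm_num, by module⟩
    have h7 : t • (l : Fin n → ℝ) = 0 := by simpa using h6
    ext i
    have := congrFun h7 i
    simpa [ht.ne'] using this
  obtain ⟨I, hB, hI⟩ := exists_basis_superset hspan hli
  have hout : ∀ i, i ∉ I.1 → a i = 0 := by
    intro i hi
    by_contra hne
    exact hi (hI hne)
  have hco : co v I y = fun b => a (emb I b) := by
    rw [← co_unique hB (fun b => a (emb I b)), sum_emb I (fun i => a i • toR (v i)), ← haF.1.2, hA]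
    congr 1
    symm
    refine Finset.sum_subset (Finset.subset_univ _) fun i _ hi => by simp [hout i hi]
  have hpos : Pos v I y := by
    intro b
    have h1 := hg I hB b
    rw [hco] at h1 ⊢
    exact lt_of_le_of_ne (hnn _) (Ne.symm h1)
  refine ⟨I, ⟨hB, fun i hi => lt_of_le_of_ne ?_ (hh I hB i hi)⟩, hpos⟩
  have := hmove (Pi.single i 1 - ∑ b, co v I (toR (v i)) b • Pi.single (emb I b) 1) ?_ ?_
  · rw [map_sub, map_sum] at this
    simp only [map_smul, cost, Fintype.linearCombination_apply_single, smul_eq_mul, one_mul] at this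
    unfold psi
    linarith
  · rw [map_sub, map_sum]
    simp only [map_smul, A, Fintype.linearCombination_apply_single, one_smul]
    rw [co_sum hB, sub_self]
  · intro j hj
    have hj' : ∀ b, emb I b ≠ j := by
      intro b hb
      have := hpos b
      rw [hco] at this
      simp only [hb, hj] at this
      exact lt_irrefl _ this
    simp only [Pi.sub_apply, Finset.sum_apply, Pi.smul_apply, smul_eq_mul]
    rw [Finset.sum_eq_zero (fun b _ => by simp [(hj' b).symm]), sub_zero]
    simp only [Pi.single_apply]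
    split_ifs <;> norm_num

end Pool.Agent.Lib.MP_9d4c03_ag
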