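import Mathlib
import Pool.Agent.Lib.MP_9d4c03_ag.Geo

/-!
Half-open decomposition of the lattice points `c` with `c + p` in the cone.
-/

set_option autoImplicit false

namespace Pool.Agent.Lib.MP_9d4c03_ag

open Filter Topology Matrix

variable {r n : ℕ}

/-- real extension of the degree -/
noncomputable def degR (deg : (Fin r → ℤ) →ₗ[ℤ] ℤ) : (Fin r → ℝ) →ₗ[ℝ] ℝ :=
  Fintype.linearCombination ℝ fun k => (deg (Pi.single k 1) : ℝ)

lemma degR_toR (deg : (Fin r → ℤ) →ₗ[ℤ] ℤ) (c : Fin r → ℤ) : degR deg (toR c) = deg c := by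
  have : c = ∑ k, c k • (Pi.single k 1 : Fin r → ℤ) := by
    ext j; simp [Finset.sum_apply, Pi.single_apply]
  conv_rhs => rw [this, map_sum]
  simp only [degR, Fintype.linearCombination_apply, toR, map_smul, smul_eq_mul]
  push_cast
  rfl

variable {v : Fin n → Fin r → ℤ}

lemma coneOn_mono {I J : Finset (Fin n)} (h : I ⊆ J) : coneOn v I ⊆ coneOn v J := by
  classical
  rintro y ⟨a, ha, rfl⟩
  refine ⟨fun i => if i ∈ I then a i else 0,
    fun i => by dsimp only; split_ifs; exacts [ha i, le_rfl], ?_⟩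
  rw [← Finset.sum_subset h (fun i _ hi => by simp [hi])]
  exact Finset.sum_congr rfl fun i hi => by simp [hi]

lemma mem_coneOn_iff {I : Sub r n} (hB : IsB v I) {y : Fin r → ℝ} :
    y ∈ coneOn v I.1 ↔ ∀ a, 0 ≤ co v I y a := by
  classical
  constructor
  · rintro ⟨a, ha, rfl⟩ b
    rw [← sum_emb I (fun i => a i • toR (v i)), co_unique hB]
    exact ha _
  · intro hy
    refine ⟨Function.extend (emb I) (co v I y) 0, fun i => ?_, ?_⟩
    · by_cases hi : ∃ a, emb I a = i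
      · obtain ⟨a, rfl⟩ := hi
        rw [(emb_inj I).extend_apply]; exact hy a
      · rw [Function.extend_apply' _ _ _ hi]; rfl
    · rw [← sum_emb I (fun i => Function.extend (emb I) (co v I y) 0 i • toR (v i))]
      simp only [(emb_inj I).extend_apply]
      exact (co_sum hB y).symm

lemma add_mem_cone {y z : Fin r → ℝ} (hy : y ∈ coneOn v Finset.univ)
    (hz : z ∈ coneOn v Finset.univ) : y + z ∈ coneOn v Finset.univ := by
  obtain ⟨a, ha, rfl⟩ := hy
  obtain ⟨b, hb, rfl⟩ := hz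
  exact ⟨a + b, fun i => add_nonneg (ha i) (hb i), by simp [add_smul, Finset.sum_add_distrib]⟩

lemma v_mem_cone (i : Fin n) : toR (v i) ∈ coneOn v Finset.univ :=
  ⟨Pi.single i 1, fun j => by simp only [Pi.single_apply]; split_ifs <;> norm_num,
    by simp [Pi.single_apply]⟩

/-- standing assumptions -/
structure Setup (v : Fin n → Fin r → ℤ) (deg : (Fin r → ℤ) →ₗ[ℤ] ℤ) (h : Fin n → ℝ)
    (p : Fin r → ℝ) : Prop where
  hdeg : ∀ i, deg (v i) = 1
  hspan : Submodule.span ℝ (Set.range fun i => toR (v i)) = ⊤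
  hgen : GenH v h
  hp : ∀ c, Generic v (toR c + p)
  hnn : ∀ c, toR c + p ∈ coneOn v Finset.univ → toR c ∈ coneOn v Finset.univ
  hnn' : ∀ c, toR c + -p ∈ coneOn v Finset.univ → toR c ∈ coneOn v Finset.univ

variable {deg : (Fin r → ℤ) →ₗ[ℤ] ℤ} {h : Fin n → ℝ} {p : Fin r → ℝ}

lemma Setup.neg (S : Setup v deg h p) : Setup v deg h (-p) where
  hdeg := S.hdeg
  hspan := S.hspan
  hgen := S.hgen
  hp := by
    intro c I hB a
    have := S.hp (-c) I hB a
    have e : toR c + -p = -(toR (-c) + p) := by ext k; simp [toR]; ring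
    rw [e, map_neg]
    simp only [Pi.neg_apply]
    exact neg_ne_zero.2 this
  hnn := S.hnn'
  hnn' := by simpa using S.hnn

variable (v h p)

/-- lattice points of the shifted cone -/
def LL : Set (Fin r → ℤ) := {c | toR c + p ∈ coneOn v Finset.univ}

/-- `I` is the cone of the triangulation containing `c + p` -/
def Sg (c : Fin r → ℤ) (I : Sub r n) : Prop := Good v h I ∧ Pos v I (toR c + p)

/-- box elements -/
def BB : Set (Fin r → ℤ) := {c | ∃ I, Sg v h p c I ∧ ∀ a, co v I (toR c + p) a < 1}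

open Classical in
/-- weights -/
noncomputable def WW (c : Fin r → ℤ) : ℝ :=
  if hc : ∃ I, Sg v h p c I then psi v h hc.choose (toR c + p) else 0

open Classical in
/-- predecessor and coefficient vector of a point outside the boxes -/
noncomputable def sel (c : Fin r → ℤ) : (Fin r → ℤ) × (Fin n → ℝ) :=
  if hc : ∃ q : Sub r n × Fin r, Sg v h p c q.1 ∧ 1 < co v q.1 (toR c + p) q.2 then
    (c - v (emb hc.choose.1 hc.choose.2), fun i => co v hc.choose.1 (toR (v i)) hc.choose.2)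
  else (c, 0)

variable {v h p}

lemma Sg.unique {c : Fin r → ℤ} {I J : Sub r n} (hI : Sg v h p c I) (hJ : Sg v h p c J) : I = J :=
  good_unique hI.1 hJ.1 hI.2 hJ.2

lemma Sg.mem {c : Fin r → ℤ} {I : Sub r n} (hI : Sg v h p c I) : c ∈ LL v p :=
  coneOn_mono (Finset.subset_univ _) ((mem_coneOn_iff hI.1.1).2 fun a => (hI.2 a).le)

lemma Setup.exists_sg (S : Setup v deg h p) {c : Fin r → ℤ} (hc : c ∈ LL v p) :
    ∃ I, Sg v h p c I :=
  exists_good (δ := degR deg) (fun i => by rw [degR_toR, S.hdeg]; simp) S.hspan S.hgen hc (S.hp c)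

lemma WW_eq {c : Fin r → ℤ} {I : Sub r n} (hI : Sg v h p c I) :
    WW v h p c = psi v h I (toR c + p) := by
  have hc : ∃ I, Sg v h p c I := ⟨I, hI⟩
  rw [WW, dif_pos hc, hc.choose_spec.unique hI]

lemma LL_add {c : Fin r → ℤ} (hc : c ∈ LL v p) (i : Fin n) : c + v i ∈ LL v p := by
  have := add_mem_cone hc (v_mem_cone (v := v) i)
  show toR (c + v i) + p ∈ coneOn v Finset.univ
  rw [toR_add]
  convert this using 1
  abel

lemma BB_subset : BB v h p ⊆ LL v p := fun _ ⟨_, hI, _⟩ => hI.mem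

lemma deg_nonneg_of_cone (hdeg : ∀ i, deg (v i) = 1) {c : Fin r → ℤ}
    (hc : toR c ∈ coneOn v Finset.univ) : 0 ≤ deg c := by
  obtain ⟨a, ha, e⟩ := hc
  have := congrArg (degR deg) e
  rw [degR_toR, map_sum] at this
  simp only [map_smul, degR_toR, hdeg, smul_eq_mul, Int.cast_one, mul_one] at this
  have h2 : (0 : ℝ) ≤ deg c := this ▸ Finset.sum_nonneg fun i _ => ha i
  exact_mod_cast h2

lemma abs_le_of_cone (hdeg : ∀ i, deg (v i) = 1) {c : Fin r → ℤ}
    (hc : toR c ∈ coneOn v Finset.univ) (b : Fin r) : |c b| ≤ deg c * ∑ i, |v i b| := by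
  obtain ⟨a, ha, e⟩ := hc
  have h1 := congrArg (degR deg) e
  rw [degR_toR, map_sum] at h1
  simp only [map_smul, degR_toR, hdeg, smul_eq_mul, Int.cast_one, mul_one] at h1
  have h2 : (c b : ℝ) = ∑ i, a i * (v i b : ℝ) := by
    have := congrFun e b
    simpa [toR, Finset.sum_apply] using this
  have h3 : |(c b : ℝ)| ≤ (deg c : ℝ) * ∑ i, |(v i b : ℝ)| := by
    rw [h2, Finset.mul_sum]
    refine (Finset.abs_sum_le_sum_abs _ _).trans (Finset.sum_le_sum fun i _ => ?_)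
    rw [abs_mul, abs_of_nonneg (ha i), h1]
    exact mul_le_mul_of_nonneg_right (Finset.single_le_sum (fun j _ => ha j) (Finset.mem_univ i))
      (abs_nonneg _)
  exact_mod_cast h3

lemma finite_cone (hdeg : ∀ i, deg (v i) = 1) (k : ℤ) :
    {c : Fin r → ℤ | toR c ∈ coneOn v Finset.univ ∧ deg c ≤ k}.Finite := by
  refine (Set.finite_Icc (fun b => -(k * ∑ i, |v i b|)) (fun b => k * ∑ i, |v i b|)).subset ?_
  rintro c ⟨h1, h2⟩
  have : ∀ b, |c b| ≤ k * ∑ i, |v i b| := fun b => (abs_le_of_cone hdeg h1 b).trans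
    (mul_le_mul_of_nonneg_right h2 (Finset.sum_nonneg fun i _ => abs_nonneg _))
  exact ⟨fun b => (abs_le.1 (this b)).1, fun b => (abs_le.1 (this b)).2⟩

lemma Setup.deg_nonneg (S : Setup v deg h p) {c : Fin r → ℤ} (hc : c ∈ LL v p) : 0 ≤ deg c :=
  deg_nonneg_of_cone S.hdeg (S.hnn c hc)

lemma Setup.finite_le (S : Setup v deg h p) (k : ℤ) : {c | c ∈ LL v p ∧ deg c ≤ k}.Finite :=
  (finite_cone S.hdeg k).subset fun c hc => ⟨S.hnn c hc.1, hc.2⟩

lemma Setup.finite_eq (S : Setup v deg h p) (k : ℤ) : {c | c ∈ LL v p ∧ deg c = k}.Finite :=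
  (S.finite_le k).subset fun _ hc => ⟨hc.1, hc.2.le⟩

lemma Setup.deg_vI (S : Setup v deg h p) (I : Sub r n) : deg (∑ i ∈ I.1, v i) = r := by
  simp [map_sum, S.hdeg, I.2]

lemma co_star {I : Sub r n} (hB : IsB v I) (c : Fin r → ℤ) (a : Fin r) :
    co v I (toR (∑ i ∈ I.1, v i - c) + -p) a = 1 - co v I (toR c + p) a := by
  have e : toR (∑ i ∈ I.1, v i - c) + -p = toR (∑ i ∈ I.1, v i) - (toR c + p) := by
    rw [toR_sub]; abel
  rw [e, map_sub, Pi.sub_apply, co_vI hB]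

lemma star {b : Fin r → ℤ} {I : Sub r n} (hI : Sg v h p b I)
    (hb : ∀ a, co v I (toR b + p) a < 1) :
    Sg v h (-p) (∑ i ∈ I.1, v i - b) I ∧ ∀ a, co v I (toR (∑ i ∈ I.1, v i - b) + -p) a < 1 := by
  refine ⟨⟨hI.1, fun a => ?_⟩, fun a => ?_⟩
  · rw [co_star hI.1.1]; linarith [hb a]
  · rw [co_star hI.1.1]; linarith [hI.2 a]

lemma Setup.deg_le (S : Setup v deg h p) {b : Fin r → ℤ} (hb : b ∈ BB v h p) : deg b ≤ r := by
  obtain ⟨I, hI, hb⟩ := hb
  have := S.neg.deg_nonneg (star hI hb).1.mem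
  rw [map_sub, S.deg_vI] at this
  linarith

lemma co_shift {I : Sub r n} (hB : IsB v I) (b : Fin r → ℤ) (m : Fin r → ℕ) (a : Fin r) :
    co v I (toR (b + ∑ j, m j • v (emb I j)) + p) a = co v I (toR b + p) a + m a := by
  have e : toR (b + ∑ j, m j • v (emb I j)) + p =
      (toR b + p) + ∑ j, (m j : ℝ) • toR (v (emb I j)) := by
    rw [toR_add, toR_sum]; simp only [toR_nsmul]; abel
  rw [e, map_add, co_unique hB]; rfl

lemma Sg.shift {b : Fin r → ℤ} {I : Sub r n} (hI : Sg v h p b I) (m : Fin r → ℕ) :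
    Sg v h p (b + ∑ j, m j • v (emb I j)) I :=
  ⟨hI.1, fun a => by
    rw [co_shift hI.1.1]; exact add_pos_of_pos_of_nonneg (hI.2 a) (Nat.cast_nonneg _)⟩

lemma shift_inj {b b' : Fin r → ℤ} {I I' : Sub r n} (hI : Sg v h p b I) (hI' : Sg v h p b' I')
    (hb : ∀ a, co v I (toR b + p) a < 1) (hb' : ∀ a, co v I' (toR b' + p) a < 1)
    {m m' : Fin r → ℕ} (e : b + ∑ j, m j • v (emb I j) = b' + ∑ j, m' j • v (emb I' j)) :
    b = b' ∧ m = m' := by
  have h1 := hI.shift m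
  have h2 := hI'.shift m'
  rw [← e] at h2
  obtain rfl := h1.unique h2
  have hm : m = m' := by
    funext a
    have c1 := co_shift (p := p) hI.1.1 b m a
    have c2 := co_shift (p := p) hI.1.1 b' m' a
    rw [e, c2] at c1
    have d1 : (m a : ℝ) < m' a + 1 := by linarith [hI.2 a, hb' a]
    have d2 : (m' a : ℝ) < m a + 1 := by linarith [hI'.2 a, hb a]
    have d3 : m a < m' a + 1 := by exact_mod_cast d1
    have d4 : m' a < m a + 1 := by exact_mod_cast d2
    omega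
  subst hm
  exact ⟨add_right_cancel e, rfl⟩

lemma Setup.sel_spec (S : Setup v deg h p) {c : Fin r → ℤ} (hc : c ∈ LL v p)
    (hb : c ∉ BB v h p) :
    ∃ I a, Sg v h p c I ∧ Sg v h p (sel v h p c).1 I ∧ (sel v h p c).1 + v (emb I a) = c ∧
      (sel v h p c).2 = fun i => co v I (toR (v i)) a := by
  have hsub : ∀ (I : Sub r n) (_ : IsB v I) (a a' : Fin r),
      co v I (toR (c - v (emb I a)) + p) a' =
        co v I (toR c + p) a' - (Pi.single a 1 : Fin r → ℝ) a' := by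
    intro I hB a a'
    have e : toR (c - v (emb I a)) + p = (toR c + p) - toR (v (emb I a)) := by rw [toR_sub]; abel
    rw [e, map_sub, co_emb hB]; rfl
  have hex : ∃ q : Sub r n × Fin r, Sg v h p c q.1 ∧ 1 < co v q.1 (toR c + p) q.2 := by
    obtain ⟨I, hI⟩ := S.exists_sg hc
    have : ¬ ∀ a, co v I (toR c + p) a < 1 := fun hh => hb ⟨I, hI, hh⟩
    push Not at this
    obtain ⟨a, ha⟩ := this
    refine ⟨(I, a), hI, lt_of_le_of_ne ha fun e => ?_⟩
    have := S.hp (c - v (emb I a)) I hI.1.1 a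
    rw [hsub I hI.1.1] at this
    apply this
    simp [← e]
  have hs := hex.choose_spec
  refine ⟨hex.choose.1, hex.choose.2, hs.1, ?_, ?_, ?_⟩
  · rw [sel, dif_pos hex]
    refine ⟨hs.1.1, fun a' => ?_⟩
    rw [hsub _ hs.1.1.1]
    by_cases ha : a' = hex.choose.2
    · subst ha; simp only [Pi.single_eq_same]; linarith [hs.2]
    · simp only [Pi.single_eq_of_ne ha]; linarith [hs.1.2 a']
  · rw [sel, dif_pos hex]; simp
  · rw [sel, dif_pos hex]

lemma Setup.sel_mem (S : Setup v deg h p) {c : Fin r → ℤ} (hc : c ∈ LL v p)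
    (hb : c ∉ BB v h p) : (sel v h p c).1 ∈ LL v p ∧ deg (sel v h p c).1 + 1 = deg c ∧
      ∃ i, (sel v h p c).1 + v i = c := by
  obtain ⟨I, a, -, h2, h3, -⟩ := S.sel_spec hc hb
  refine ⟨h2.mem, ?_, _, h3⟩
  conv_rhs => rw [← h3, map_add, S.hdeg]

/-- strict subadditivity of the weights off the cone of `c` -/
lemma Setup.WW_lt (S : Setup v deg h p) {c : Fin r → ℤ} {I : Sub r n} (hI : Sg v h p c I)
    {i : Fin n} (hi : i ∉ I.1) : WW v h p (c + v i) < WW v h p c + h i := by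
  obtain ⟨J, hJ⟩ := S.exists_sg (LL_add hI.mem i)
  have e : toR (c + v i) + p = (toR c + p) + toR (v i) := by rw [toR_add]; abel
  rw [WW_eq hJ, WW_eq hI, e, psi_add]
  by_cases hIJ : I = J
  · subst hIJ
    linarith [hI.1.2 i hi]
  · linarith [psi_lt hJ.1 hI.1.1 hI.2 hIJ, hJ.1.le i]

lemma WW_add_emb {c : Fin r → ℤ} {I : Sub r n} (hI : Sg v h p c I) (a : Fin r)
    (hI' : Sg v h p (c + v (emb I a)) I) :
    WW v h p (c + v (emb I a)) = WW v h p c + h (emb I a) := by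
  have e : toR (c + v (emb I a)) + p = (toR c + p) + toR (v (emb I a)) := by rw [toR_add]; abel
  rw [WW_eq hI', WW_eq hI, e, psi_add, psi_emb hI.1.1]

lemma psi_pair {I : Sub r n} (hB : IsB v I) (c : Fin r → ℤ) :
    psi v h I (toR c + p) + psi v h I (toR (∑ i ∈ I.1, v i - c) + -p) = ∑ i ∈ I.1, h i := by
  rw [← psi_add, ← psi_vI hB, toR_sub]
  congr 1
  abel

lemma Setup.WW_pair_lt (S : Setup v deg h p) {c : Fin r → ℤ} {I : Sub r n} (hB : IsB v I)
    (h1 : Pos v I (toR c + p)) (h2 : Pos v I (toR (∑ i ∈ I.1, v i - c) + -p))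
    (hn : ¬ Good v h I) :
    WW v h p c + WW v h (-p) (∑ i ∈ I.1, v i - c) < ∑ i ∈ I.1, h i := by
  have m1 : c ∈ LL v p :=
    coneOn_mono (Finset.subset_univ _) ((mem_coneOn_iff hB).2 fun a => (h1 a).le)
  have m2 : ∑ i ∈ I.1, v i - c ∈ LL v (-p) :=
    coneOn_mono (Finset.subset_univ _) ((mem_coneOn_iff hB).2 fun a => (h2 a).le)
  obtain ⟨J, hJ⟩ := S.exists_sg m1
  obtain ⟨J', hJ'⟩ := S.neg.exists_sg m2
  rw [WW_eq hJ, WW_eq hJ', ← psi_pair (p := p) hB c]
  have hne : I ≠ J := fun e => hn (e ▸ hJ.1)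
  linarith [psi_lt hJ.1 hB h1 hne, psi_le hJ'.1 hB h2]

lemma WW_pair_eq {c : Fin r → ℤ} {I : Sub r n} (h1 : Sg v h p c I)
    (h2 : Sg v h (-p) (∑ i ∈ I.1, v i - c) I) :
    WW v h p c + WW v h (-p) (∑ i ∈ I.1, v i - c) = ∑ i ∈ I.1, h i := by
  rw [WW_eq h1, WW_eq h2, psi_pair h1.1.1]

end Pool.Agent.Lib.MP_9d4c03_ag
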