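import Mathlib
import Pool.Agent.Lib.MP_9d4c03_ag.Lat
import Pool.Agent.Lib.MP_9d4c03_ag.Gen

/-!
The graded linear systems attached to a generic point `x`.
-/

set_option autoImplicit false

namespace Pool.Agent.Lib.MP_9d4c03_ag

open Filter Topology Matrix MvPolynomial

variable {r n : ℕ} (v : Fin n → Fin r → ℤ) (deg : (Fin r → ℤ) →ₗ[ℤ] ℤ) (h : Fin n → ℝ)
  (p : Fin r → ℝ)

open Classical in
/-- points of degree `k` -/
noncomputable def LK (k : ℤ) : Finset (Fin r → ℤ) :=
  if hf : {c | c ∈ LL v p ∧ deg c = k}.Finite then hf.toFinset else ∅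

open Classical in
/-- points of degree `k` outside the boxes -/
noncomputable def DK (k : ℤ) : Finset (Fin r → ℤ) := (LK v deg p k).filter fun c => c ∉ BB v h p

/-- leading part of the Euler operators -/
noncomputable def ZZ (x : Fin n → ℂ) (j : Fin r) (u : (Fin r → ℤ) → ℂ) (c : Fin r → ℤ) : ℂ :=
  ∑ i, (v i j : ℂ) * x i * u (c + v i)

/-- the selected relation at a point outside the boxes -/
noncomputable def rho (x : Fin n → ℂ) (c : Fin r → ℤ) (u : (Fin r → ℤ) → ℂ) : ℂ :=
  ∑ i, ((sel v h p c).2 i : ℂ) * x i * u ((sel v h p c).1 + v i)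

/-- the selected relations and the values on the boxes determine a function in degree `k` -/
def G1 (x : Fin n → ℂ) (k : ℤ) : Prop :=
  ∀ u : (Fin r → ℤ) → ℂ, (∀ c ∈ BB v h p, deg c = k → u c = 0) →
    (∀ c ∈ DK v deg h p k, rho v h p x c u = 0) → ∀ c ∈ LL v p, deg c = k → u c = 0

/-- the support condition of the pairing -/
def Cond (I : Sub r n) (c d : Fin r → ℤ) : Prop :=
  IsB v I ∧ c + d = ∑ i ∈ I.1, v i ∧ Pos v I (toR c + p) ∧ Pos v I (toR d + -p)

open Classical in
/-- one row of the pairing -/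
noncomputable def om (x : Fin n → ℂ) (u : (Fin r → ℤ) → ℂ) (d : Fin r → ℤ) : ℂ :=
  ∑ I : Sub r n, if Cond v p I (∑ i ∈ I.1, v i - d) d then
    (vol v I.1 : ℂ) * (∏ i ∈ I.1, x i) * u (∑ i ∈ I.1, v i - d) else 0

open Classical in
/-- injectivity of the block system in degree `k` -/
def TT (x : Fin n → ℂ) (k : ℤ) : Prop :=
  ∀ u a : (Fin r → ℤ) → ℂ, (∀ c ∈ DK v deg h p k, rho v h p x c u = 0) →
    (∀ e ∈ LK v deg (-p) (r - k), om v p x u e + ∑ d ∈ DK v deg h (-p) (r - k),
      ∑ i, (if (sel v h (-p) d).1 + v i = e then ((sel v h (-p) d).2 i : ℂ) * x i * a d else 0) = 0) →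
    ∀ c ∈ LL v p, deg c = k → u c = 0

variable {v deg h p}

lemma Setup.mem_LK (S : Setup v deg h p) {k : ℤ} {c : Fin r → ℤ} :
    c ∈ LK v deg p k ↔ c ∈ LL v p ∧ deg c = k := by
  rw [LK, dif_pos (S.finite_eq k)]; simp

lemma Setup.mem_DK (S : Setup v deg h p) {k : ℤ} {c : Fin r → ℤ} :
    c ∈ DK v deg h p k ↔ c ∈ LL v p ∧ deg c = k ∧ c ∉ BB v h p := by
  classical
  rw [DK, Finset.mem_filter, S.mem_LK, and_assoc]

lemma vol_ne_zero {I : Sub r n} (hB : IsB v I) : (vol v I.1 : ℂ) ≠ 0 := by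
  rw [vol, dif_pos I.2]
  exact_mod_cast Int.natAbs_ne_zero.2 hB

lemma Setup.rho_eq_zero (S : Setup v deg h p) {c : Fin r → ℤ} (hc : c ∈ LL v p)
    (hb : c ∉ BB v h p) {x : Fin n → ℂ} {u : (Fin r → ℤ) → ℂ}
    (hu : ∀ j, ZZ v x j u (sel v h p c).1 = 0) : rho v h p x c u = 0 := by
  obtain ⟨I, a, -, -, -, h4⟩ := S.sel_spec hc hb
  have : rho v h p x c u = ∑ j, (((matR v I)⁻¹ j a : ℝ) : ℂ) * ZZ v x j u (sel v h p c).1 := by
    simp only [rho, ZZ, h4, co_apply, Finset.mul_sum, toR]
    rw [Finset.sum_comm]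
    refine Finset.sum_congr rfl fun i _ => ?_
    push_cast
    rw [Finset.sum_mul, Finset.sum_mul]
    exact Finset.sum_congr rfl fun j _ => by ring
  rw [this]
  simp [hu]

lemma Setup.sel_cases (S : Setup v deg h p) {c : Fin r → ℤ} (hc : c ∈ LL v p)
    (hb : c ∉ BB v h p) : ∃ i₀, (sel v h p c).1 + v i₀ = c ∧ (sel v h p c).2 i₀ = 1 ∧
      WW v h p c = WW v h p (sel v h p c).1 + h i₀ ∧ ∀ i, i ≠ i₀ → (sel v h p c).2 i = 0 ∨
        WW v h p ((sel v h p c).1 + v i) < WW v h p (sel v h p c).1 + h i := by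
  obtain ⟨I, a, h1, h2, h3, h4⟩ := S.sel_spec hc hb
  refine ⟨emb I a, h3, ?_, ?_, fun i hi => ?_⟩
  · rw [h4]; simp [co_emb h1.1.1]
  · have := WW_add_emb h2 a (by rw [h3]; exact h1)
    rwa [h3] at this
  · by_cases hiI : i ∈ I.1
    · left
      obtain ⟨a', rfl⟩ := exists_emb hiI
      have : a ≠ a' := fun e => hi (e ▸ rfl)
      rw [h4]; simp [co_emb h1.1.1, this]
    · right
      exact S.WW_lt h2 hiI

lemma Setup.adm_rho (S : Setup v deg h p) {κ : Type} {K : Finset κ} {γ : κ → ℝ}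
    (ι : (Fin r → ℤ) → κ) {k : ℤ} (hι : ∀ c ∈ LK v deg p k, ι c ∈ K ∧ γ (ι c) = WW v h p c)
    {c : Fin r → ℤ} (hc : c ∈ DK v deg h p k) :
    Adm h K γ (WW v h p (sel v h p c).1) (fun x u => rho v h p x c (u ∘ ι)) (fun u => u (ι c)) := by
  classical
  obtain ⟨hc1, hc2, hc3⟩ := S.mem_DK.1 hc
  obtain ⟨i₀, h1, h2, h3, h4⟩ := S.sel_cases hc1 hc3
  obtain ⟨h5, h6, -⟩ := S.sel_mem hc1 hc3
  have hm : ∀ i, (sel v h p c).1 + v i ∈ LK v deg p k := fun i =>
    S.mem_LK.2 ⟨LL_add h5 i, by rw [map_add, S.hdeg, h6, hc2]⟩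
  refine (Adm.sum (h := h) (K := K) (γ := γ) (α := WW v h p (sel v h p c).1) Finset.univ
    (F := fun i x u => ((sel v h p c).2 i : ℂ) * (∏ j ∈ {i}, x j) * u (ι ((sel v h p c).1 + v i)))
    (F₀ := fun i u => if i = i₀ then u (ι c) else 0) fun i _ => ?_).congr
      (fun x u => by simp [rho]) (fun u => by simp)
  by_cases hi : i = i₀
  · subst hi
    refine (Adm.term_eq (hι _ (hm i)).1 ((sel v h p c).2 i : ℂ) {i} ?_).congr (fun _ _ => rfl)
      fun u => by simp [h1, h2]
    rw [(hι _ (hm i)).2, h1, h3]; simp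
  · rcases h4 i hi with h7 | h7
    · exact Adm.zero.congr (fun x u => by simp [h7]) fun u => by simp [hi]
    · refine (Adm.term_lt (hι _ (hm i)).1 ((sel v h p c).2 i : ℂ) {i} ?_).congr (fun _ _ => rfl)
        fun u => by simp [hi]
      rw [(hι _ (hm i)).2]; simpa using h7

theorem Setup.generic_G1 (S : Setup v deg h p) (k : ℤ) :
    ∃ E : MvPolynomial (Fin n) ℂ, E ≠ 0 ∧ ∀ x, eval x E ≠ 0 → G1 v deg h p x k := by
  classical
  obtain ⟨E, h1, h2⟩ := generic_inj (h := h) (K := LK v deg p k) (γ := WW v h p) (LK v deg p k)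
    (fun c => if c ∈ BB v h p then WW v h p c else WW v h p (sel v h p c).1)
    (F := fun c x u => if c ∈ BB v h p then u c else rho v h p x c u) (F₀ := fun c u => u c)
    (fun c hc => by
      by_cases hb : c ∈ BB v h p
      · simp only [hb, if_true]
        exact (Adm.term_eq hc 1 ∅ (by simp)).congr (fun x u => by simp) fun u => by simp
      · simp only [hb, if_false]
        exact S.adm_rho id (fun c hc => ⟨hc, rfl⟩) (Finset.mem_filter.2 ⟨hc, hb⟩))
    (fun u hu => hu)
  refine ⟨E, h1, fun x hx u hu1 hu2 c hc hk => h2 x hx u (fun c hc => ?_) c (S.mem_LK.2 ⟨hc, hk⟩)⟩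
  by_cases hb : c ∈ BB v h p
  · simp only [hb, if_true]
    exact hu1 c hb (S.mem_LK.1 hc).2
  · simp only [hb, if_false]
    exact hu2 c (Finset.mem_filter.2 ⟨hc, hb⟩)

lemma Cond.mem {I : Sub r n} {c d : Fin r → ℤ} (hc : Cond v p I c d) :
    c ∈ LL v p ∧ d ∈ LL v (-p) :=
  ⟨coneOn_mono (Finset.subset_univ _) ((mem_coneOn_iff hc.1).2 fun a => (hc.2.2.1 a).le),
    coneOn_mono (Finset.subset_univ _) ((mem_coneOn_iff hc.1).2 fun a => (hc.2.2.2 a).le)⟩

lemma Cond.symm {I : Sub r n} {c d : Fin r → ℤ} (hc : Cond v p I c d) : Cond v (-p) I d c :=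
  ⟨hc.1, by rw [add_comm, hc.2.1], hc.2.2.2, by rw [neg_neg]; exact hc.2.2.1⟩

lemma Setup.cond_deg (S : Setup v deg h p) {I : Sub r n} {c d : Fin r → ℤ} (hc : Cond v p I c d) :
    deg c + deg d = r := by
  rw [← map_add, hc.2.1, S.deg_vI]

theorem Setup.generic_TT (S : Setup v deg h p) (k : ℤ) :
    ∃ E : MvPolynomial (Fin n) ℂ, E ≠ 0 ∧ ∀ x, eval x E ≠ 0 → TT v deg h p x k := by
  classical
  let γ : (Fin r → ℤ) ⊕ (Fin r → ℤ) → ℝ :=
    Sum.elim (WW v h p) fun d => -WW v h (-p) (sel v h (-p) d).1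
  obtain ⟨E, h1, h2⟩ := generic_inj (h := h)
    (K := (LK v deg p k).disjSum (DK v deg h (-p) (r - k))) (γ := γ)
    ((DK v deg h p k).disjSum (LK v deg (-p) (r - k)))
    (Sum.elim (fun c => WW v h p (sel v h p c).1) fun e => -WW v h (-p) e)
    (F := Sum.elim (fun c x u => rho v h p x c (u ∘ Sum.inl)) fun e x u =>
      om v p x (u ∘ Sum.inl) e + ∑ d ∈ DK v deg h (-p) (r - k),
        ∑ i, (if (sel v h (-p) d).1 + v i = e then
          ((sel v h (-p) d).2 i : ℂ) * x i * u (Sum.inr d) else 0))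
    (F₀ := Sum.elim (fun c u => u (Sum.inl c)) fun e u =>
      (∑ I : Sub r n, if Cond v p I (∑ i ∈ I.1, v i - e) e ∧ Good v h I then
        (vol v I.1 : ℂ) * u (Sum.inl (∑ i ∈ I.1, v i - e)) else 0) +
      ∑ d ∈ DK v deg h (-p) (r - k), if d = e then u (Sum.inr d) else 0)
    (by
      rintro (c | e) hc
      · exact S.adm_rho Sum.inl (fun c hc => ⟨by simpa using hc, rfl⟩) (by simpa using hc)
      · have he := S.neg.mem_LK.1 (by simpa using hc : e ∈ LK v deg (-p) (r - k))
        refine Adm.add (Adm.sum _ fun I _ => ?_) (Adm.sum _ fun d hd => ?_)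
        · by_cases hI : Cond v p I (∑ i ∈ I.1, v i - e) e
          · have hm : Sum.inl (∑ i ∈ I.1, v i - e) ∈
                (LK v deg p k).disjSum (DK v deg h (-p) (r - k)) := by
              rw [Finset.inl_mem_disjSum, S.mem_LK]
              refine ⟨hI.mem.1, ?_⟩
              have := S.cond_deg hI
              linarith [he.2]
            by_cases hG : Good v h I
            · refine (Adm.term_eq hm (vol v I.1 : ℂ) I.1 ?_).congr (fun x u => by simp [hI])
                fun u => by simp [hI, hG]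
              have := WW_pair_eq (h := h) (p := p) (c := ∑ i ∈ I.1, v i - e) ⟨hG, hI.2.2.1⟩
                (by rw [sub_sub_cancel]; exact ⟨hG, hI.2.2.2⟩)
              rw [sub_sub_cancel] at this
              simp only [γ, Sum.elim_inl, Sum.elim_inr]
              linarith
            · refine (Adm.term_lt hm (vol v I.1 : ℂ) I.1 ?_).congr (fun x u => by simp [hI])
                fun u => by simp [hG]
              have := S.WW_pair_lt (c := ∑ i ∈ I.1, v i - e) hI.1 hI.2.2.1
                (by rw [sub_sub_cancel]; exact hI.2.2.2) hG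
              rw [sub_sub_cancel] at this
              simp only [γ, Sum.elim_inl, Sum.elim_inr]
              linarith
          · exact Adm.zero.congr (fun x u => by simp [hI]) fun u => by simp [hI]
        · obtain ⟨hd1, -, hd3⟩ := S.neg.mem_DK.1 hd
          obtain ⟨i₀, h1, h2, h3, h4⟩ := S.neg.sel_cases hd1 hd3
          have hm : Sum.inr d ∈ (LK v deg p k).disjSum (DK v deg h (-p) (r - k)) := by simpa using hd
          refine (Adm.sum Finset.univ
            (F₀ := fun i u => if i = i₀ ∧ d = e then u (Sum.inr d) else 0) fun i _ => ?_).congr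
              (fun x u => rfl) (fun u => by by_cases hde : d = e <;> simp [hde])
          by_cases hie : (sel v h (-p) d).1 + v i = e
          · by_cases hi : i = i₀
            · subst hi
              have hde : d = e := h1.symm.trans hie
              refine (Adm.term_eq hm ((sel v h (-p) d).2 i : ℂ) {i} ?_).congr
                (fun x u => by simp [hie]) fun u => by rw [h2]; simp [hde]
              simp only [γ, Sum.elim_inr, Finset.sum_singleton]
              rw [← hde, h3]; ring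
            · rcases h4 i hi with h7 | h7
              · exact Adm.zero.congr (fun x u => by simp [h7]) fun u => by simp [hi]
              · refine (Adm.term_lt hm ((sel v h (-p) d).2 i : ℂ) {i} ?_).congr
                  (fun x u => by simp [hie]) fun u => by simp [hi]
                simp only [γ, Sum.elim_inr, Finset.sum_singleton]
                rw [hie] at h7
                linarith
          · refine Adm.zero.congr (fun x u => by simp [hie]) fun u => ?_
            rw [if_neg]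
            rintro ⟨rfl, rfl⟩
            exact hie h1)
    (by
      intro u hu
      have c1 : ∀ c ∈ LK v deg p k, u (Sum.inl c) = 0 := by
        intro c hc
        by_cases hb : c ∈ BB v h p
        · obtain ⟨I, hI, hb⟩ := hb
          obtain ⟨s1, s2⟩ := star hI hb
          have hc' := S.mem_LK.1 hc
          have := hu (Sum.inr (∑ i ∈ I.1, v i - c)) (by
            rw [Finset.inr_mem_disjSum, S.neg.mem_LK, map_sub, S.deg_vI, hc'.2]
            exact ⟨s1.mem, rfl⟩)
          simp only [Sum.elim_inr] at this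
          rw [Finset.sum_eq_zero (s := DK v deg h (-p) (r - k)) (fun d hd => if_neg (by
            rintro rfl
            exact (S.neg.mem_DK.1 hd).2.2 ⟨I, s1, s2⟩)), add_zero,
            Finset.sum_eq_single I (fun J _ hJ => if_neg fun hh =>
              hJ (Sg.unique ⟨hh.2, hh.1.2.2.2⟩ s1)) (by simp), sub_sub_cancel,
            if_pos ⟨⟨hI.1.1, by simp, hI.2, s1.2⟩, hI.1⟩] at this
          exact (mul_eq_zero.1 this).resolve_left (vol_ne_zero hI.1.1)
        · exact hu (Sum.inl c) (by simpa [DK] using ⟨hc, hb⟩)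
      rintro (c | d) hc
      · exact c1 c (by simpa using hc)
      · have hd : d ∈ DK v deg h (-p) (r - k) := by simpa using hc
        have hd' := S.neg.mem_DK.1 hd
        have := hu (Sum.inr d) (by
          rw [Finset.inr_mem_disjSum, S.neg.mem_LK]; exact ⟨hd'.1, hd'.2.1⟩)
        simp only [Sum.elim_inr] at this
        rw [Finset.sum_eq_zero (s := Finset.univ) (fun I _ => by
          split_ifs with hI
          · rw [c1 _ (S.mem_LK.2 ⟨hI.1.mem.1, by linarith [S.cond_deg hI.1, hd'.2.1]⟩), mul_zero]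
          · rfl), zero_add] at this
        simpa [hd] using this)
  refine ⟨E, h1, fun x hx u a hu ha c hc hk => ?_⟩
  refine h2 x hx (Sum.elim u a) ?_ (Sum.inl c) (by simpa using S.mem_LK.2 ⟨hc, hk⟩)
  rintro (c | e) hc
  · exact hu c (by simpa using hc)
  · exact ha e (by simpa using hc)

lemma TT.dual {x : Fin n → ℂ} {k : ℤ} (hT : TT v deg h p x k) {u : (Fin r → ℤ) → ℂ}
    (hu : ∀ c ∈ DK v deg h p k, rho v h p x c u = 0)
    (hψ : ∀ ψ : (Fin r → ℤ) → ℂ, (∀ d ∈ DK v deg h (-p) (r - k), rho v h (-p) x d ψ = 0) →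
      ∑ e ∈ LK v deg (-p) (r - k), om v p x u e * ψ e = 0) :
    ∀ c ∈ LL v p, deg c = k → u c = 0 := by
  classical
  let L : DK v deg h (-p) (r - k) → ((Fin r → ℤ) → ℂ) →ₗ[ℂ] ℂ := fun d =>
    ∑ i, (((sel v h (-p) d).2 i : ℂ) * x i) • LinearMap.proj ((sel v h (-p) d).1 + v i)
  have hL : ∀ d ψ, L d ψ = rho v h (-p) x d ψ := fun d ψ => by simp [L, rho]
  let K : ((Fin r → ℤ) → ℂ) →ₗ[ℂ] ℂ :=
    ∑ e ∈ LK v deg (-p) (r - k), om v p x u e • LinearMap.proj e
  have hK : ∀ ψ, K ψ = ∑ e ∈ LK v deg (-p) (r - k), om v p x u e * ψ e := fun ψ => by simp [K]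
  have hmem : K ∈ Submodule.span ℂ (Set.range L) := mem_span_of_iInf_ker_le_ker fun ψ hh => by
    rw [LinearMap.mem_ker, hK]
    refine hψ ψ fun d hd => ?_
    rw [← hL ⟨d, hd⟩]
    exact (Submodule.mem_iInf _).1 hh ⟨d, hd⟩
  obtain ⟨a, ha⟩ := (Submodule.mem_span_range_iff_exists_fun ℂ).1 hmem
  refine hT u (Function.extend Subtype.val (-a) 0) hu fun e he => ?_
  have h1 := LinearMap.congr_fun ha (Pi.single e 1)
  rw [hK, Finset.sum_eq_single e (fun b _ hb => by simp [hb]) (fun hh => (hh he).elim)] at h1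
  simp only [Pi.single_eq_same, mul_one, LinearMap.sum_apply, LinearMap.smul_apply, hL, rho,
    smul_eq_mul] at h1
  rw [← h1, ← Finset.sum_coe_sort (DK v deg h (-p) (r - k)), ← Finset.sum_add_distrib]
  refine Finset.sum_eq_zero fun d _ => ?_
  rw [Finset.mul_sum, ← Finset.sum_add_distrib]
  refine Finset.sum_eq_zero fun i _ => ?_
  rw [Subtype.val_injective.extend_apply, Pi.single_apply]
  split_ifs <;> simp
  ring

end Pool.Agent.Lib.MP_9d4c03_ag
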