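import Mathlib
import Pool.Agent.Lib.MP_9d4c03_ag.Defs

/-!
Holomorphic families with `∂_i Φ_c = Φ_{c + v_i}` on a ball: uniqueness and existence.
-/

set_option autoImplicit false

namespace Pool.Agent.Lib.MP_9d4c03_ag

open Filter Topology Metric

variable {r n : ℕ} {v : Fin n → Fin r → ℤ} {L : Set (Fin r → ℤ)}

lemma clm_apply (l : (Fin n → ℂ) →L[ℂ] ℂ) (y : Fin n → ℂ) :
    l y = ∑ i, y i * l (Pi.single i 1) := by
  have : y = ∑ i, y i • (Pi.single i 1 : Fin n → ℂ) := by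
    ext j; simp [Finset.sum_apply, Pi.single_apply]
  conv_lhs => rw [this, map_sum]
  simp only [map_smul, smul_eq_mul]

theorem uniq (hL : ∀ c ∈ L, ∀ i, c + v i ∈ L) {x₀ : Fin n → ℂ} {ρ : ℝ}
    {Θ : (Fin r → ℤ) → (Fin n → ℂ) → ℂ} (hd : ∀ c ∈ L, DifferentiableOn ℂ (Θ c) (ball x₀ ρ))
    (hp : ∀ c ∈ L, ∀ x ∈ ball x₀ ρ, ∀ i, pd i (Θ c) x = Θ (c + v i) x)
    (h0 : ∀ c ∈ L, Θ c x₀ = 0) : ∀ c ∈ L, ∀ x ∈ ball x₀ ρ, Θ c x = 0 := by
  intro c hc x hx
  by_cases hxx : x = x₀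
  · rw [hxx]; exact h0 c hc
  set y := x - x₀ with hy
  have hy0 : 0 < ‖y‖ := norm_pos_iff.2 (sub_ne_zero.2 hxx)
  have hyρ : ‖y‖ < ρ := by rwa [mem_ball, dist_eq_norm] at hx
  have hline : ∀ t ∈ ball (0 : ℂ) (ρ / ‖y‖), x₀ + t • y ∈ ball x₀ ρ := by
    intro t ht
    rw [mem_ball_zero_iff, lt_div_iff₀ hy0] at ht
    rw [mem_ball, dist_eq_norm, add_sub_cancel_left, norm_smul]
    exact ht
  let φ : (Fin r → ℤ) → ℂ → ℂ := fun c t => Θ c (x₀ + t • y)
  have hder : ∀ c ∈ L, ∀ t ∈ ball (0 : ℂ) (ρ / ‖y‖),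
      HasDerivAt (φ c) (∑ i, y i * φ (c + v i) t) t := by
    intro c hc t ht
    have h1 := ((hd c hc).differentiableAt (isOpen_ball.mem_nhds (hline t ht))).hasFDerivAt
    have h2 : HasDerivAt (fun t : ℂ => x₀ + t • y) y t := by
      simpa using ((hasDerivAt_id t).smul_const y).const_add x₀
    have h3 := h1.comp_hasDerivAt t h2
    rw [clm_apply] at h3
    refine HasDerivAt.congr_deriv h3 (Finset.sum_congr rfl fun i _ => ?_)
    rw [← pd, hp c hc _ (hline t ht)]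
  have hdiff : ∀ c ∈ L, DifferentiableOn ℂ (φ c) (ball 0 (ρ / ‖y‖)) := fun c hc t ht =>
    (hder c hc t ht).differentiableAt.differentiableWithinAt
  have hR : 1 < ρ / ‖y‖ := (one_lt_div hy0).2 hyρ
  have hn : ball (0 : ℂ) (ρ / ‖y‖) ∈ 𝓝 0 := ball_mem_nhds _ (by linarith)
  have hit : ∀ k : ℕ, ∀ c ∈ L, iteratedDeriv k (φ c) 0 = 0 := by
    intro k
    induction k with
    | zero => intro c hc; simpa [φ] using h0 c hc
    | succ k ih =>
      intro c hc
      have h1 : deriv (φ c) =ᶠ[𝓝 0] fun t => ∑ i, y i * φ (c + v i) t := by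
        filter_upwards [hn] with t ht using (hder c hc t ht).deriv
      have h2 : ∀ i, ContDiffAt ℂ k (φ (c + v i)) 0 := fun i =>
        ((hdiff _ (hL c hc i)).analyticAt hn).contDiffAt
      rw [iteratedDeriv_succ', h1.iteratedDeriv_eq,
        iteratedDeriv_fun_sum fun i _ => contDiffAt_const.mul (h2 i)]
      refine Finset.sum_eq_zero fun i _ => ?_
      rw [iteratedDeriv_const_mul _ (h2 i), ih _ (hL c hc i), mul_zero]
  have h1 := Complex.hasSum_taylorSeries_on_ball (hdiff c hc) (z := 1) (by simpa using hR)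
  simp only [hit _ c hc, smul_zero] at h1
  have h2 := h1.unique hasSum_zero
  simpa [φ, hy] using h2

/-- homogeneous terms of the Taylor series -/
noncomputable def gg (v : Fin n → Fin r → ℤ) (u : (Fin r → ℤ) → ℂ) :
    ℕ → (Fin r → ℤ) → (Fin n → ℂ) → ℂ
  | 0, c, _ => u c
  | k + 1, c, y => ∑ i, y i * gg v u k (c + v i) y

/-- derivative of the homogeneous terms -/
noncomputable def dg (v : Fin n → Fin r → ℤ) (u : (Fin r → ℤ) → ℂ) (k : ℕ) (c : Fin r → ℤ)
    (y : Fin n → ℂ) : (Fin n → ℂ) →L[ℂ] ℂ :=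
  ∑ i, gg v u k (c + v i) y • ContinuousLinearMap.proj i

variable {u : (Fin r → ℤ) → ℂ}

lemma dg_apply (k : ℕ) (c : Fin r → ℤ) (y z : Fin n → ℂ) :
    dg v u k c y z = ∑ i, gg v u k (c + v i) y * z i := by simp [dg]

lemma gg_deriv (k : ℕ) : ∀ (c : Fin r → ℤ) (y : Fin n → ℂ),
    HasFDerivAt (gg v u (k + 1) c) (((k + 1 : ℕ) : ℂ) • dg v u k c y) y := by
  induction k with
  | zero =>
    intro c y
    have := HasFDerivAt.fun_sum (u := Finset.univ) fun i _ =>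
      (hasFDerivAt_apply (𝕜 := ℂ) i y).mul_const (u (c + v i))
    exact HasFDerivAt.congr_fderiv this (by simp [dg, gg])
  | succ k ih =>
    intro c y
    have := HasFDerivAt.fun_sum (u := Finset.univ) fun i _ =>
      (hasFDerivAt_apply (𝕜 := ℂ) i y).mul (ih (c + v i) y)
    refine HasFDerivAt.congr_fderiv this ?_
    · refine ContinuousLinearMap.ext fun z => ?_
      simp only [smul_apply, dg_apply, sum_apply, add_apply, smul_eq_mul,
        ContinuousLinearMap.proj_apply, Finset.sum_add_distrib]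
      have e : ∑ i, y i * (((k + 1 : ℕ) : ℂ) * ∑ j, gg v u k (c + v i + v j) y * z j) =
          ((k + 1 : ℕ) : ℂ) * ∑ j, gg v u (k + 1) (c + v j) y * z j := by
        simp only [gg, Finset.mul_sum, Finset.sum_mul]
        rw [Finset.sum_comm]
        refine Finset.sum_congr rfl fun j _ => Finset.sum_congr rfl fun i _ => ?_
        rw [add_right_comm c (v j) (v i)]; ring
      rw [e]; push_cast; ring

theorem exist (hL : ∀ c ∈ L, ∀ i, c + v i ∈ L) {deg : (Fin r → ℤ) →ₗ[ℤ] ℤ}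
    (hdeg : ∀ i, deg (v i) = 1) (hnn : ∀ c ∈ L, 0 ≤ deg c) {A C ρ : ℝ} (hA : 0 ≤ A) (hC : 0 < C)
    (hρ : 0 < ρ) (hρC : n * ρ * C < 1)
    (hu : ∀ k : ℕ, ∀ c ∈ L, deg c = k → ‖u c‖ ≤ A * C ^ k * k.factorial) (x₀ : Fin n → ℂ) :
    ∃ Φ : (Fin r → ℤ) → (Fin n → ℂ) → ℂ, ∀ c ∈ L, DifferentiableOn ℂ (Φ c) (ball x₀ ρ) ∧
      (∀ x ∈ ball x₀ ρ, ∀ i, pd i (Φ c) x = Φ (c + v i) x) ∧ Φ c x₀ = u c := by
  have hb : ∀ y ∈ ball (0 : Fin n → ℂ) ρ, ∀ k d : ℕ, ∀ c ∈ L, deg c = d →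
      ‖gg v u k c y‖ ≤ (n * ρ) ^ k * (A * C ^ (k + d) * (k + d).factorial) := by
    intro y hy k
    rw [mem_ball_zero_iff] at hy
    induction k with
    | zero => intro d c hc e; simpa [gg] using hu d c hc e
    | succ k ih =>
      intro d c hc e
      have h1 : ∀ i, ‖y i * gg v u k (c + v i) y‖ ≤
          ρ * ((n * ρ) ^ k * (A * C ^ (k + 1 + d) * (k + 1 + d).factorial)) := by
        intro i
        rw [norm_mul, show k + 1 + d = k + (d + 1) by ring]
        exact mul_le_mul ((norm_le_pi_norm y i).trans hy.le)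
          (ih (d + 1) _ (hL c hc i) (by rw [map_add, e, hdeg]; simp)) (norm_nonneg _) hρ.le
      refine (norm_sum_le _ _).trans ((Finset.sum_le_sum fun i _ => h1 i).trans (le_of_eq ?_))
      simp only [Finset.sum_const, Finset.card_univ, Fintype.card_fin, nsmul_eq_mul]
      ring
  let b : ℕ → ℕ → ℝ := fun d k =>
    (k.factorial : ℝ)⁻¹ * ((n * ρ) ^ k * (A * C ^ (k + d) * (k + d).factorial))
  have hbs : ∀ d, Summable (b d) := by
    intro d
    have h1 := (summable_choose_mul_geometric_of_norm_lt_one d (r := n * ρ * C)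
      (by rw [Real.norm_of_nonneg (by positivity)]; exact hρC)).mul_left (A * C ^ d * d.factorial)
    refine h1.congr fun k => ?_
    have h2 : (((k + d).factorial : ℕ) : ℝ) = (k + d).choose d * k.factorial * d.factorial := by
      exact_mod_cast (Nat.add_choose_mul_factorial_mul_factorial k d).symm
    have h3 : (k.factorial : ℝ) ≠ 0 := by exact_mod_cast k.factorial_ne_zero
    simp only [b, h2]
    field_simp
    ring
  have hb' : ∀ y ∈ ball (0 : Fin n → ℂ) ρ, ∀ k d : ℕ, ∀ c ∈ L, deg c = d →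
      ‖(k.factorial : ℂ)⁻¹ * gg v u k c y‖ ≤ b d k := by
    intro y hy k d c hc e
    rw [norm_mul, norm_inv, Complex.norm_natCast]
    exact mul_le_mul_of_nonneg_left (hb y hy k d c hc e) (by positivity)
  have hs : ∀ y ∈ ball (0 : Fin n → ℂ) ρ, ∀ c ∈ L,
      Summable fun k : ℕ => (k.factorial : ℂ)⁻¹ * gg v u k c y := fun y hy c hc =>
    Summable.of_norm_bounded (hbs (deg c).toNat) fun k =>
      hb' y hy k _ c hc (Int.toNat_of_nonneg (hnn c hc)).symm
  let Ψ : (Fin r → ℤ) → (Fin n → ℂ) → ℂ := fun c y => ∑' k, (k.factorial : ℂ)⁻¹ * gg v u k c y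
  have hΨ : ∀ c ∈ L, ∀ y ∈ ball (0 : Fin n → ℂ) ρ, ∃ l : (Fin n → ℂ) →L[ℂ] ℂ,
      HasFDerivAt (Ψ c) l y ∧ ∀ i, l (Pi.single i 1) = Ψ (c + v i) y := by
    intro c hc y hy
    have hbd : ∀ k : ℕ, ∀ z ∈ ball (0 : Fin n → ℂ) ρ,
        ‖(k.factorial : ℂ)⁻¹ • dg v u k c z‖ ≤ n * b ((deg c).toNat + 1) k := by
      intro k z hz
      rw [dg, Finset.smul_sum]
      refine (norm_sum_le _ _).trans ((Finset.sum_le_card_nsmul _ _ (b ((deg c).toNat + 1) k)
        fun i _ => ?_).trans (by simp))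
      rw [smul_smul, norm_smul]
      have h1 := hb' z hz k ((deg c).toNat + 1) _ (hL c hc i) (by
        rw [map_add, hdeg]; have := hnn c hc; omega)
      have h2 : ‖(ContinuousLinearMap.proj i : (Fin n → ℂ) →L[ℂ] ℂ)‖ ≤ 1 :=
        ContinuousLinearMap.opNorm_le_bound _ zero_le_one fun z => by
          simpa using norm_le_pi_norm z i
      exact (mul_le_of_le_one_right (norm_nonneg _) h2).trans h1
    have h1 := hasFDerivAt_tsum_of_isPreconnected (𝕜 := ℂ)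
      (f := fun k z => ((k + 1).factorial : ℂ)⁻¹ * gg v u (k + 1) c z)
      (f' := fun k z => (k.factorial : ℂ)⁻¹ • dg v u k c z)
      ((hbs ((deg c).toNat + 1)).mul_left (n : ℝ)) isOpen_ball (convex_ball _ _).isPreconnected
      (fun k z _ => by
        refine HasFDerivAt.congr_fderiv
          ((gg_deriv (v := v) (u := u) k c z).const_mul ((k + 1).factorial : ℂ)⁻¹) ?_
        rw [smul_smul, Nat.factorial_succ]
        congr 1
        have : ((k + 1 : ℕ) : ℂ) ≠ 0 := by exact_mod_cast k.succ_ne_zero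
        rw [Nat.cast_mul, mul_inv, mul_assoc, mul_comm, mul_assoc, mul_inv_cancel₀ this, mul_one])
      hbd hy ((summable_nat_add_iff 1).2 (hs y hy c hc)) hy
    refine ⟨_, (h1.const_add (u c)).congr_of_eventuallyEq ?_, fun i => ?_⟩
    · filter_upwards [isOpen_ball.mem_nhds hy] with z hz
      rw [show Ψ c z = _ from (hs z hz c hc).tsum_eq_zero_add]
      simp [gg]
    · have h2 := (ContinuousLinearMap.apply ℂ ℂ (Pi.single i 1 : Fin n → ℂ)).map_tsum
        (Summable.of_norm_bounded ((hbs ((deg c).toNat + 1)).mul_left (n : ℝ)) fun k => hbd k y hy)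
      simp only [ContinuousLinearMap.apply_apply] at h2
      rw [h2]
      refine tsum_congr fun k => ?_
      simp [dg_apply, Pi.single_apply]
  have hm : ∀ x ∈ ball x₀ ρ, x - x₀ ∈ ball (0 : Fin n → ℂ) ρ := fun x hx => by
    rwa [mem_ball_zero_iff, ← dist_eq_norm]
  have hΦ : ∀ c ∈ L, ∀ x ∈ ball x₀ ρ, ∃ l : (Fin n → ℂ) →L[ℂ] ℂ,
      HasFDerivAt (fun x => Ψ c (x - x₀)) l x ∧ ∀ i, l (Pi.single i 1) = Ψ (c + v i) (x - x₀) := by
    intro c hc x hx
    obtain ⟨l, h1, h2⟩ := hΨ c hc _ (hm x hx)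
    have h3 := HasFDerivAt.comp (f := fun x => x - x₀) x h1 ((hasFDerivAt_id x).sub_const x₀)
    exact ⟨l, HasFDerivAt.congr_fderiv h3 (by simp), h2⟩
  refine ⟨fun c x => Ψ c (x - x₀), fun c hc => ⟨fun x hx => ?_, fun x hx i => ?_, ?_⟩⟩
  · obtain ⟨l, h1, -⟩ := hΦ c hc x hx
    exact h1.differentiableAt.differentiableWithinAt
  · obtain ⟨l, h1, h2⟩ := hΦ c hc x hx
    rw [pd, h1.fderiv, h2]
  · simp only [sub_self, Ψ]
    rw [tsum_eq_single 0]
    · simp [gg]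
    · intro k hk
      obtain ⟨k, rfl⟩ := Nat.exists_eq_succ_of_ne_zero hk
      simp [gg]

theorem euler (hL : ∀ c ∈ L, ∀ i, c + v i ∈ L) {x₀ : Fin n → ℂ} {ρ : ℝ} {β : Fin r → ℂ}
    {Φ : (Fin r → ℤ) → (Fin n → ℂ) → ℂ} (hd : ∀ c ∈ L, DifferentiableOn ℂ (Φ c) (ball x₀ ρ))
    (hp : ∀ c ∈ L, ∀ x ∈ ball x₀ ρ, ∀ i, pd i (Φ c) x = Φ (c + v i) x) (j : Fin r)
    (h0 : ∀ c ∈ L, ((c j : ℂ) - β j) * Φ c x₀ + ∑ i, (v i j : ℂ) * x₀ i * Φ (c + v i) x₀ = 0) :
    ∀ c ∈ L, ∀ x ∈ ball x₀ ρ,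
      ((c j : ℂ) - β j) * Φ c x + ∑ i, (v i j : ℂ) * x i * Φ (c + v i) x = 0 := by
  have hF : ∀ c ∈ L, ∀ x ∈ ball x₀ ρ, HasFDerivAt (Φ c) (fderiv ℂ (Φ c) x) x := fun c hc x hx =>
    ((hd c hc).differentiableAt (isOpen_ball.mem_nhds hx)).hasFDerivAt
  have hΘ := fun c (hc : c ∈ L) x (hx : x ∈ ball x₀ ρ) =>
    ((hF c hc x hx).const_mul ((c j : ℂ) - β j)).fun_add
      (HasFDerivAt.fun_sum (u := Finset.univ) fun i _ =>
        ((hasFDerivAt_apply (𝕜 := ℂ) i x).const_mul (v i j : ℂ)).fun_mul (hF _ (hL c hc i) x hx))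
  refine uniq (v := v) hL (fun c hc x hx => (hΘ c hc x hx).differentiableAt.differentiableWithinAt)
    (fun c hc x hx l => ?_) h0
  rw [pd, (hΘ c hc x hx).fderiv]
  have h1 := hp c hc x hx l
  have h2 := fun i => hp _ (hL c hc i) x hx l
  simp only [pd] at h1 h2
  simp only [add_apply, smul_apply, smul_eq_mul, sum_apply, ContinuousLinearMap.proj_apply,
    h1, h2, Finset.sum_add_distrib,
    Pi.single_apply, mul_ite, mul_one, mul_zero, Finset.sum_ite_eq', Finset.mem_univ, if_true,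
    add_right_comm c (v l), Pi.add_apply]
  push_cast
  ring

end Pool.Agent.Lib.MP_9d4c03_ag
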