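import Mathlib
import Pool.Agent.Lib.MP_9d4c03_ag.Alg

/-!
Formal solutions at a generic point: growth, and existence with prescribed values on the boxes.
-/

set_option autoImplicit false

namespace Pool.Agent.Lib.MP_9d4c03_ag

open Filter Topology Matrix

variable {r n : ℕ} (v : Fin n → Fin r → ℤ) (deg : (Fin r → ℤ) →ₗ[ℤ] ℤ) (h : Fin n → ℝ)
  (p : Fin r → ℝ)

/-- the Euler equations at the point `x` -/
def EqS (β : Fin r → ℂ) (x : Fin n → ℂ) (u : (Fin r → ℤ) → ℂ) : Prop :=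
  ∀ c ∈ LL v p, ∀ j, ((c j : ℂ) - β j) * u c + ZZ v x j u c = 0

/-- the graded systems up to degree `r + 1` are injective -/
def GG (x : Fin n → ℂ) : Prop := ∀ k ∈ Finset.Icc (0 : ℤ) (r + 1), G1 v deg h p x k

variable {v deg h p}

lemma Setup.weak (S : Setup v deg h p) {x : Fin n → ℂ} {k : ℤ} (hG : G1 v deg h p x k)
    {u : (Fin r → ℤ) → ℂ} (h1 : ∀ c ∈ BB v h p, deg c = k → u c = 0)
    (h2 : ∀ c ∈ LL v p, deg c + 1 = k → ∀ j, ZZ v x j u c = 0) :
    ∀ c ∈ LL v p, deg c = k → u c = 0 := by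
  refine hG u h1 fun c hc => ?_
  obtain ⟨c1, c2, c3⟩ := S.mem_DK.1 hc
  obtain ⟨h5, h6, -⟩ := S.sel_mem c1 c3
  exact S.rho_eq_zero c1 c3 (h2 _ h5 (by rw [h6, c2]))

lemma Setup.decomp (S : Setup v deg h p) (m : ℕ) : ∀ c ∈ LL v p, deg c = r + 1 + m →
    ∃ c₀ s, c = c₀ + s ∧ c₀ ∈ LL v p ∧ deg c₀ = r + 1 ∧ deg s = m ∧
      ∀ c' ∈ LL v p, c' + s ∈ LL v p := by
  induction m with
  | zero => exact fun c hc hk => ⟨c, 0, by simp, hc, by simpa using hk, by simp, by simp⟩
  | succ m ih =>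
    intro c hc hk
    have hb : c ∉ BB v h p := fun hb => by
      have := S.deg_le hb
      push_cast at hk
      omega
    obtain ⟨h5, h6, i, h7⟩ := S.sel_mem hc hb
    obtain ⟨c₀, s, e, a1, a2, a3, a4⟩ := ih _ h5 (by push_cast at hk; omega)
    refine ⟨c₀, s + v i, by rw [← h7, e, add_assoc], a1, a2, ?_, fun c' hc' => ?_⟩
    · rw [map_add, a3, S.hdeg]; simp
    · rw [← add_assoc]; exact LL_add (a4 c' hc') i

lemma Setup.bound (S : Setup v deg h p) {x : Fin n → ℂ} (hG : G1 v deg h p x (r + 1)) :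
    ∃ M : ℝ, 0 ≤ M ∧ ∀ K : ℤ, r + 1 ≤ K → ∀ (u : (Fin r → ℤ) → ℂ) (t : ℝ), 0 ≤ t →
      (∀ c ∈ LL v p, deg c + 1 = K → ∀ j, ‖ZZ v x j u c‖ ≤ t) →
      ∀ c ∈ LL v p, deg c = K → ‖u c‖ ≤ M * t := by
  classical
  let ex : (LK v deg p (r + 1) → ℂ) →ₗ[ℂ] ((Fin r → ℤ) → ℂ) :=
    Function.ExtendByZero.linearMap ℂ Subtype.val
  have hex : ∀ u (c : LK v deg p (r + 1)), ex u c = u c := fun u c =>
    Subtype.val_injective.extend_apply _ _ _
  let f : (LK v deg p (r + 1) → ℂ) →ₗ[ℂ] (LK v deg p r × Fin r → ℂ) :=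
    (LinearMap.pi fun q => ∑ i, ((v i q.2 : ℂ) * x i) • LinearMap.proj (q.1.1 + v i)) ∘ₗ ex
  have hf : ∀ u q, f u q = ZZ v x q.2 (ex u) q.1 := fun u q => by simp [f, ZZ]
  have hker : LinearMap.ker f = ⊥ := by
    rw [LinearMap.ker_eq_bot']
    intro u hu
    funext c
    rw [← hex u c]
    have hc := S.mem_LK.1 c.2
    refine S.weak hG (fun b hb hk => ?_) (fun c' hc' hk j => ?_) c hc.1 hc.2
    · have := S.deg_le hb
      omega
    · rw [← hf u (⟨c', S.mem_LK.2 ⟨hc', by omega⟩⟩, j), hu]; rfl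
  obtain ⟨M, -, hM⟩ := f.exists_antilipschitzWith hker
  have base : ∀ (u : (Fin r → ℤ) → ℂ) (t : ℝ), 0 ≤ t →
      (∀ c ∈ LL v p, deg c = r → ∀ j, ‖ZZ v x j u c‖ ≤ t) →
      ∀ c ∈ LL v p, deg c = r + 1 → ‖u c‖ ≤ M * t := by
    intro u t ht hu c hc hk
    have h1 := ZeroHomClass.bound_of_antilipschitz f hM (u ∘ Subtype.val)
    have h2 : ‖f (u ∘ Subtype.val)‖ ≤ t := by
      refine (pi_norm_le_iff_of_nonneg ht).2 fun q => ?_
      have hq := S.mem_LK.1 q.1.2
      rw [hf]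
      refine le_of_eq_of_le (congrArg norm ?_) (hu _ hq.1 hq.2 q.2)
      refine Finset.sum_congr rfl fun i _ => ?_
      rw [hex (u ∘ Subtype.val) ⟨q.1.1 + v i, S.mem_LK.2 ⟨LL_add hq.1 i, by
        rw [map_add, hq.2, S.hdeg]⟩⟩]
      rfl
    have h3 := norm_le_pi_norm (u ∘ (Subtype.val : LK v deg p (r + 1) → _))
      ⟨c, S.mem_LK.2 ⟨hc, hk⟩⟩
    exact h3.trans (h1.trans (mul_le_mul_of_nonneg_left h2 M.2))
  refine ⟨M, M.2, fun K hK u t ht hu c hc hk => ?_⟩
  obtain ⟨m, rfl⟩ := Int.le.dest hK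
  obtain ⟨c₀, s, rfl, a1, a2, a3, a4⟩ := S.decomp m c hc hk
  refine base (fun c => u (c + s)) t ht (fun c' hc' hk' j => ?_) c₀ a1 a2
  convert hu (c' + s) (a4 c' hc') (by rw [map_add, hk', a3]; ring) j using 2
  simp only [ZZ, add_right_comm]

lemma Setup.weak_all (S : Setup v deg h p) {x : Fin n → ℂ} (hG : GG v deg h p x) {k : ℤ}
    {u : (Fin r → ℤ) → ℂ} (h1 : ∀ c ∈ BB v h p, deg c = k → u c = 0)
    (h2 : ∀ c ∈ LL v p, deg c + 1 = k → ∀ j, ZZ v x j u c = 0) :
    ∀ c ∈ LL v p, deg c = k → u c = 0 := by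
  intro c hc hk
  by_cases hk' : k ≤ r + 1
  · exact S.weak (hG k (Finset.mem_Icc.2 ⟨hk ▸ S.deg_nonneg hc, hk'⟩)) h1 h2 c hc hk
  · obtain ⟨M, -, hM⟩ := S.bound (hG (r + 1) (Finset.mem_Icc.2 ⟨by omega, le_rfl⟩))
    have := hM k (by omega) u 0 le_rfl (fun c hc hk j => by rw [h2 c hc hk j]; simp) c hc hk
    simpa using this

theorem Setup.growth (S : Setup v deg h p) {x : Fin n → ℂ} (hG : GG v deg h p x) :
    ∃ C : ℝ, 0 < C ∧ ∀ β u, EqS v p β x u → ∃ A : ℝ, 0 ≤ A ∧ ∀ k : ℕ, ∀ c ∈ LL v p, deg c = k →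
      ‖u c‖ ≤ A * C ^ k * k.factorial := by
  obtain ⟨M, hM0, hM⟩ := S.bound (hG (r + 1) (Finset.mem_Icc.2 ⟨by omega, le_rfl⟩))
  set B : ℝ := ∑ j, ∑ i, |(v i j : ℝ)| with hB
  have hB0 : 0 ≤ B := Finset.sum_nonneg fun j _ => Finset.sum_nonneg fun i _ => abs_nonneg _
  have hC : 1 ≤ M * (B + 1) + 1 := by nlinarith [mul_nonneg hM0 hB0]
  refine ⟨M * (B + 1) + 1, by linarith, fun β u hu => ?_⟩
  obtain ⟨K₀, hK₀⟩ := exists_nat_ge ‖β‖
  obtain ⟨A, hA⟩ := ((S.finite_le (r + K₀)).image fun c => ‖u c‖).bddAbove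
  have hA' : ∀ c ∈ LL v p, deg c ≤ r + K₀ → ‖u c‖ ≤ max A 0 := fun c hc hk =>
    (hA ⟨c, ⟨hc, hk⟩, rfl⟩).trans (le_max_left _ _)
  refine ⟨max A 0, le_max_right _ _, fun k => ?_⟩
  set A' := max A 0
  have hA0 : 0 ≤ A' := le_max_right _ _
  have low : ∀ k : ℕ, k ≤ r + K₀ → ∀ c ∈ LL v p, deg c = k →
      ‖u c‖ ≤ A' * (M * (B + 1) + 1) ^ k * k.factorial := by
    intro k hk c hc e
    have h1 : (1 : ℝ) ≤ k.factorial := by exact_mod_cast k.factorial_pos
    have h2 := one_le_pow₀ hC (n := k)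
    calc ‖u c‖ ≤ A' * 1 * 1 := by simpa using hA' c hc (by omega)
      _ ≤ _ := by gcongr
  induction k with
  | zero => exact low 0 (by omega)
  | succ k ih =>
    by_cases hk : k + 1 ≤ r + K₀
    · exact low _ hk
    intro c hc e
    have := hM (k + 1 : ℕ) (by omega) u ((k + 1) * (B + 1) * (A' * (M * (B + 1) + 1) ^ k * k.factorial))
      (by positivity) (fun c' hc' e' j => ?_) c hc e
    · refine this.trans ?_
      rw [Nat.factorial_succ, pow_succ]
      push_cast
      have : 0 ≤ (k + 1) * (A' * (M * (B + 1) + 1) ^ k * k.factorial) := by positivity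
      nlinarith
    · have e2 : deg c' = k := by push_cast at e'; omega
      rw [eq_neg_of_add_eq_zero_right (hu c' hc' j), norm_neg, norm_mul]
      refine mul_le_mul ?_ (ih c' hc' e2) (norm_nonneg _) (by positivity)
      have h1 := abs_le_of_cone S.hdeg (S.hnn c' hc') j
      rw [e2] at h1
      have h2 : |(c' j : ℝ)| ≤ k * ∑ i, |(v i j : ℝ)| := by exact_mod_cast h1
      have h3 : ∑ i, |(v i j : ℝ)| ≤ B := Finset.single_le_sum
        (f := fun j => ∑ i, |(v i j : ℝ)|) (fun j _ => Finset.sum_nonneg fun i _ => abs_nonneg _)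
        (Finset.mem_univ j)
      have h4 : ‖β j‖ ≤ k := (norm_le_pi_norm β j).trans (hK₀.trans (by exact_mod_cast by omega))
      have h5 : ‖(c' j : ℂ)‖ = |(c' j : ℝ)| := Complex.norm_intCast _
      have h6 := norm_sub_le (c' j : ℂ) (β j)
      have h7 : (k : ℝ) * ∑ i, |(v i j : ℝ)| ≤ k * B := by gcongr
      nlinarith

/-- the Euler operators on the semigroup module -/
noncomputable def DD (v : Fin n → Fin r → ℤ) (β : Fin r → ℂ) (x : Fin n → ℂ) (j : Fin r) :
    Module.End ℂ ((Fin r → ℤ) →₀ ℂ) :=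
  Finsupp.linearCombination ℂ fun c => Finsupp.single c ((c j : ℂ) - β j) +
    ∑ i, Finsupp.single (c + v i) ((v i j : ℂ) * x i)

lemma DD_dual (β : Fin r → ℂ) (x : Fin n → ℂ) (j : Fin r) (l : ((Fin r → ℤ) →₀ ℂ) →ₗ[ℂ] ℂ)
    (c : Fin r → ℤ) : l (DD v β x j (Finsupp.single c 1)) =
      ((c j : ℂ) - β j) * l (Finsupp.single c 1) +
        ZZ v x j (fun c => l (Finsupp.single c 1)) c := by
  have : ∀ (c : Fin r → ℤ) (a : ℂ), l (Finsupp.single c a) = a * l (Finsupp.single c 1) := by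
    intro c a
    rw [← smul_eq_mul, ← map_smul]; simp
  simp only [DD, Finsupp.linearCombination_single, one_smul, map_add, map_sum, ZZ]
  rw [this]
  congr 1
  exact Finset.sum_congr rfl fun i _ => this _ _

lemma DD_comm (β : Fin r → ℂ) (x : Fin n → ℂ) (j k : Fin r) :
    Commute (DD v β x j) (DD v β x k) := by
  have key : ∀ (j k : Fin r) (c : Fin r → ℤ) (l : ((Fin r → ℤ) →₀ ℂ) →ₗ[ℂ] ℂ),
      l (DD v β x j (DD v β x k (Finsupp.single c 1))) =
        ((c k : ℂ) - β k) * ((c j : ℂ) - β j) * l (Finsupp.single c 1) +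
        ∑ i, (((c k : ℂ) - β k) * v i j + ((c j : ℂ) - β j) * v i k + v i j * v i k) * x i *
          l (Finsupp.single (c + v i) 1) +
        ∑ i, ∑ i', (v i k : ℂ) * v i' j * x i * x i' * l (Finsupp.single (c + v i + v i') 1) := by
    intro j k c l
    have h1 := DD_dual (v := v) β x k (l ∘ₗ DD v β x j) c
    simp only [LinearMap.comp_apply, DD_dual, ZZ] at h1
    rw [h1, mul_add, add_assoc, add_assoc, ← Finset.sum_add_distrib, Finset.mul_sum,
      ← Finset.sum_add_distrib, mul_assoc]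
    congr 1
    refine Finset.sum_congr rfl fun i _ => ?_
    rw [mul_add, Finset.mul_sum, ← add_assoc]
    congr 1
    · simp only [Pi.add_apply]; push_cast; ring
    · exact Finset.sum_congr rfl fun i' _ => by ring
  refine Finsupp.lhom_ext' fun c => LinearMap.ext_ring ?_
  ext e
  have h1 := key j k c (Finsupp.lapply e)
  have h2 := key k j c (Finsupp.lapply e)
  simp only [Finsupp.lapply_apply] at h1 h2
  simp only [LinearMap.comp_apply, Finsupp.lsingle_apply, Module.End.mul_apply]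
  rw [h1, h2, Finset.sum_comm (s := Finset.univ) (t := Finset.univ)
    (f := fun i i' => (v i j : ℂ) * v i' k * x i * x i' *
      (Finsupp.single (c + v i + v i') (1 : ℂ) : (Fin r → ℤ) →₀ ℂ) e)]
  congr 1
  · congr 1
    · ring
    · exact Finset.sum_congr rfl fun i _ => by ring
  · refine Finset.sum_congr rfl fun i _ => Finset.sum_congr rfl fun i' _ => ?_
    rw [add_right_comm c (v i') (v i)]; ring

lemma exists_Dm (β : Fin r → ℂ) (x : Fin n → ℂ) :
    ∃ Dm : (Fin r → ℕ) → Module.End ℂ ((Fin r → ℤ) →₀ ℂ), Dm 0 = 1 ∧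
      ∀ m j, Dm (m + Pi.single j 1) = DD v β x j * Dm m := by
  let φ := MonoidHom.noncommPiCoprod (N := fun _ : Fin r => Multiplicative ℕ)
    (fun j => powersHom _ (DD v β x j)) fun j k _ a b => (DD_comm β x j k).pow_pow _ _
  refine ⟨fun m => φ fun j => Multiplicative.ofAdd (m j), map_one φ, fun m j => ?_⟩
  have e : (fun k => Multiplicative.ofAdd ((m + Pi.single j 1 : Fin r → ℕ) k)) =
      (Pi.mulSingle j (Multiplicative.ofAdd 1) : Fin r → Multiplicative ℕ) *
        fun k => Multiplicative.ofAdd (m k) := by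
    funext k
    by_cases hk : k = j
    · subst hk; simp [ofAdd_add, mul_comm]
    · simp [hk]
  simp only [e, map_mul, φ, MonoidHom.noncommPiCoprod_mulSingle]
  simp

theorem Setup.exists_sol (S : Setup v deg h p) {x : Fin n → ℂ} (hG : GG v deg h p x)
    (β : Fin r → ℂ) (a : (Fin r → ℤ) → ℂ) :
    ∃ u, EqS v p β x u ∧ ∀ b ∈ BB v h p, u b = a b := by
  classical
  obtain ⟨Dm, hD0, hD⟩ := exists_Dm (v := v) β x
  let F : (Fin r → ℤ) × (Fin r → ℕ) → ((Fin r → ℤ) →₀ ℂ) := fun q => Dm q.2 (Finsupp.single q.1 1)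
  let J : ℕ → Set ((Fin r → ℤ) × (Fin r → ℕ)) := fun K =>
    {q | q.1 ∈ BB v h p ∧ deg q.1 + (∑ j, q.2 j : ℕ) < K}
  have hFD : ∀ q j, DD v β x j (F q) = F (q.1, q.2 + Pi.single j 1) := fun q j => by
    simp [F, hD]
  have hspan : ∀ K : ℕ, ∀ c ∈ LL v p, deg c < K →
      Finsupp.single c 1 ∈ Submodule.span ℂ (F '' J K) := by
    intro K
    induction K with
    | zero => intro c hc hk; have := S.deg_nonneg hc; omega
    | succ K ih =>
      have mono : Submodule.span ℂ (F '' J K) ≤ Submodule.span ℂ (F '' J (K + 1)) :=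
        Submodule.span_mono (Set.image_mono fun q hq => ⟨hq.1, by have := hq.2; omega⟩)
      intro c hc hk
      by_cases hk' : deg c < K
      · exact mono (ih c hc hk')
      by_contra hnot
      obtain ⟨l, hl1, hl2⟩ := Submodule.exists_dual_map_eq_bot_of_notMem hnot inferInstance
      have hl : ∀ y ∈ Submodule.span ℂ (F '' J (K + 1)), l y = 0 := fun y hy => by
        have : l y ∈ Submodule.map l (Submodule.span ℂ (F '' J (K + 1))) :=
          Submodule.mem_map_of_mem hy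
        rwa [hl2] at this
      refine hl1 (S.weak_all hG (k := K) (u := fun c => l (Finsupp.single c 1))
        (fun b hb e => ?_) (fun c' hc' e j => ?_) c hc (by omega))
      · refine hl _ (Submodule.subset_span ⟨(b, 0), ⟨hb, by simp [e]⟩, by simp [F, hD0]⟩)
      · have h1 := ih c' hc' (by omega)
        have h2 : DD v β x j (Finsupp.single c' 1) ∈ Submodule.span ℂ (F '' J (K + 1)) := by
          have : Submodule.span ℂ (F '' J K) ≤
              (Submodule.span ℂ (F '' J (K + 1))).comap (DD v β x j) := by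
            rw [Submodule.span_le]
            rintro _ ⟨q, hq, rfl⟩
            refine Submodule.subset_span ⟨(q.1, q.2 + Pi.single j 1), ⟨hq.1, ?_⟩, (hFD q j).symm⟩
            have := hq.2
            simp only [Pi.add_apply, Finset.sum_add_distrib, Finset.sum_pi_single',
              Finset.mem_univ, if_true]
            omega
          exact this h1
        have h3 := hl _ h2
        rwa [DD_dual, hl _ (mono h1), mul_zero, zero_add] at h3
  have hindK : ∀ K : ℕ, LinearIndepOn ℂ F (J K) := by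
    intro K
    have hfin : {c | c ∈ LL v p ∧ deg c < K}.Finite :=
      (S.finite_le K).subset fun c hc => ⟨hc.1, hc.2.le⟩
    have hex : ∀ q : J K, ∃ I, Sg v h p q.1.1 I ∧ ∀ a, co v I (toR q.1.1 + p) a < 1 :=
      fun q => q.2.1
    choose I hI1 hI2 using hex
    let g : J K → {c | c ∈ LL v p ∧ deg c < K} := fun q =>
      ⟨q.1.1 + ∑ j, q.1.2 j • v (emb (I q) j), ((hI1 q).shift _).mem, by
        have := q.2.2
        rw [map_add, map_sum]
        simp only [map_nsmul, S.hdeg]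
        simpa using this⟩
    have hg : Function.Injective g := by
      intro q q' e
      obtain ⟨e1, e2⟩ := shift_inj (hI1 q) (hI1 q') (hI2 q) (hI2 q') (congrArg Subtype.val e)
      exact Subtype.ext (Prod.ext e1 e2)
    have := hfin.to_subtype
    have := Finite.of_injective g hg
    have := Fintype.ofFinite (J K)
    have := Fintype.ofFinite {c | c ∈ LL v p ∧ deg c < K}
    rw [LinearIndepOn, linearIndependent_iff_card_le_finrank_span]
    refine (Fintype.card_le_of_injective g hg).trans ?_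
    have h1 : LinearIndependent ℂ fun c : {c | c ∈ LL v p ∧ deg c < K} =>
        (Finsupp.single c.1 1 : (Fin r → ℤ) →₀ ℂ) :=
      (Finsupp.linearIndependent_single_one ℂ (Fin r → ℤ)).comp _ Subtype.val_injective
    rw [← finrank_span_eq_card h1]
    have := FiniteDimensional.span_of_finite ℂ (Set.finite_range fun q : J K => F q)
    refine Submodule.finrank_mono (Submodule.span_le.2 ?_)
    rintro _ ⟨c, rfl⟩
    rw [← Set.image_eq_range]
    exact hspan K c c.2.1 c.2.2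
  have hind : LinearIndepOn ℂ F (⋃ K, J K) :=
    linearIndepOn_iUnion_of_directed (Monotone.directed_le fun K K' hK q hq =>
      ⟨hq.1, by have := hq.2; omega⟩) hindK
  have hmemJ : ∀ q : (Fin r → ℤ) × (Fin r → ℕ), q.1 ∈ BB v h p → q ∈ ⋃ K, J K := fun q hq =>
    Set.mem_iUnion.2 ⟨(deg q.1 + (∑ j, q.2 j : ℕ)).toNat + 1, hq, by omega⟩
  obtain ⟨l, hl⟩ := LinearMap.exists_extend
    (Finsupp.linearCombination ℂ (fun q : (⋃ K, J K) => if q.1.2 = 0 then a q.1.1 else 0) ∘ₗ
      LinearIndependent.repr hind)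
  have hlF : ∀ q : (Fin r → ℤ) × (Fin r → ℕ), q.1 ∈ BB v h p →
      l (F q) = if q.2 = 0 then a q.1 else 0 := by
    intro q hq
    have h1 := LinearMap.congr_fun hl ⟨F q, Submodule.subset_span ⟨⟨q, hmemJ q hq⟩, rfl⟩⟩
    rw [LinearMap.comp_apply, LinearMap.comp_apply,
      LinearIndependent.repr_eq_single hind ⟨q, hmemJ q hq⟩ _ rfl] at h1
    simpa using h1
  refine ⟨fun c => l (Finsupp.single c 1), fun c hc j => ?_, fun b hb => ?_⟩
  · rw [← DD_dual]
    have h1 := hspan ((deg c).toNat + 1) c hc (by omega)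
    have : Submodule.span ℂ (F '' J ((deg c).toNat + 1)) ≤ LinearMap.ker (l ∘ₗ DD v β x j) := by
      rw [Submodule.span_le]
      rintro _ ⟨q, hq, rfl⟩
      show l (DD v β x j (F q)) = 0
      rw [hFD, hlF (q.1, q.2 + Pi.single j 1) hq.1, if_neg]
      intro e
      simpa using congrFun e j
    exact this h1
  · simpa [F, hD0] using hlF (b, 0) hb

lemma Setup.vanish (S : Setup v deg h p) {x : Fin n → ℂ} (hG : GG v deg h p x) {β : Fin r → ℂ}
    {u : (Fin r → ℤ) → ℂ} (hu : EqS v p β x u) {k : ℤ}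
    (hb : ∀ b ∈ BB v h p, deg b < k → u b = 0) : ∀ c ∈ LL v p, deg c < k → u c = 0 := by
  have : ∀ K : ℕ, ∀ c ∈ LL v p, deg c < k → deg c < K → u c = 0 := by
    intro K
    induction K with
    | zero => intro c hc _ hk; have := S.deg_nonneg hc; omega
    | succ K ih =>
      intro c hc h1 h2
      by_cases hk' : deg c < K
      · exact ih c hc h1 hk'
      refine S.weak_all hG (k := K) (fun b hb' e => hb b hb' (by omega)) (fun c' hc' e j => ?_)
        c hc (by omega)
      have := hu c' hc' j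
      rwa [ih c' hc' (by omega) (by omega), mul_zero, zero_add] at this
  exact fun c hc hk => this ((deg c).toNat + 1) c hc hk (by omega)

end Pool.Agent.Lib.MP_9d4c03_ag
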