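import Mathlib
import Pool.Agent.Lib.MP_9d4c03_ag.Free

/-!
Nondegeneracy of the pairing on formal solutions at a generic point.
-/

set_option autoImplicit false

namespace Pool.Agent.Lib.MP_9d4c03_ag

open Filter Topology Matrix MvPolynomial

variable {r n : ℕ} (v : Fin n → Fin r → ℤ) (deg : (Fin r → ℤ) →ₗ[ℤ] ℤ) (h : Fin n → ℝ)
  (p : Fin r → ℝ)

open Classical in
/-- points of degree at most `r` -/
noncomputable def LE : Finset (Fin r → ℤ) :=
  if hf : {c | c ∈ LL v p ∧ deg c ≤ r}.Finite then hf.toFinset else ∅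

open Classical in
/-- the pairing of two functions on lattice points, with sign `σ` -/
noncomputable def Pm (σ : ℤ → ℤ → ℂ) (x : Fin n → ℂ) (u ψ : (Fin r → ℤ) → ℂ) : ℂ :=
  ∑ d ∈ LE v deg (-p), ∑ I : Sub r n, ∑ c ∈ LE v deg p, if Cond v p I c d then
    σ (deg c) (deg d) * (vol v I.1 : ℂ) * (∏ i ∈ I.1, x i) * u c * ψ d else 0

variable {v deg h p}

lemma Setup.mem_LE (S : Setup v deg h p) {c : Fin r → ℤ} :
    c ∈ LE v deg p ↔ c ∈ LL v p ∧ deg c ≤ r := by
  rw [LE, dif_pos (S.finite_le r)]; simp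

lemma Pm_symm (σ : ℤ → ℤ → ℂ) (x : Fin n → ℂ) (u ψ : (Fin r → ℤ) → ℂ) :
    Pm v deg (-p) (fun a b => σ b a) x ψ u = Pm v deg p σ x u ψ := by
  unfold Pm
  rw [neg_neg, Finset.sum_comm]
  conv_rhs => rw [Finset.sum_comm]
  refine Finset.sum_congr rfl fun I _ => ?_
  rw [Finset.sum_comm]
  refine Finset.sum_congr rfl fun d _ => Finset.sum_congr rfl fun c _ => ?_
  by_cases hc : Cond v p I c d
  · rw [if_pos hc, if_pos hc.symm]; ring
  · rw [if_neg hc, if_neg fun hh => hc (by simpa using hh.symm)]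

open Classical in
lemma Setup.sum_cond (S : Setup v deg h p) (I : Sub r n) (d : Fin r → ℤ) (f : (Fin r → ℤ) → ℂ) :
    (∑ c ∈ LE v deg p, if Cond v p I c d then f c else 0) =
      if Cond v p I (∑ i ∈ I.1, v i - d) d then f (∑ i ∈ I.1, v i - d) else 0 := by
  refine Finset.sum_eq_single _ (fun c _ hc => if_neg fun hh => hc (eq_sub_of_add_eq hh.2.1))
    fun hc => if_neg fun hh => hc (S.mem_LE.2 ⟨hh.mem.1, ?_⟩)
  linarith [S.cond_deg hh, S.neg.deg_nonneg hh.mem.2]

theorem Setup.nondeg (S : Setup v deg h p) {x : Fin n → ℂ} (hG : GG v deg h p x)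
    (hG' : GG v deg h (-p) x) (hT : ∀ k ∈ Finset.Icc (0 : ℤ) r, TT v deg h p x k)
    {σ : ℤ → ℤ → ℂ} (hσ : ∀ a b, σ a b ≠ 0) {β : Fin r → ℂ} {u : (Fin r → ℤ) → ℂ}
    (hu : EqS v p β x u) (hP : ∀ ψ, EqS v (-p) (-β) x ψ → Pm v deg p σ x u ψ = 0) :
    ∀ c ∈ LL v p, u c = 0 := by
  classical
  suffices H : ∀ K : ℕ, ∀ c ∈ LL v p, deg c < K → u c = 0 from
    fun c hc => H ((deg c).toNat + 1) c hc (by omega)
  intro K
  induction K with
  | zero => intro c hc hk; have := S.deg_nonneg hc; omega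
  | succ K ih =>
    intro c hc hk
    by_cases hk' : deg c < K
    · exact ih c hc hk'
    have hZ : ∀ c ∈ LL v p, deg c + 1 = K → ∀ j, ZZ v x j u c = 0 := fun c' hc' e j => by
      have := hu c' hc' j
      rwa [ih c' hc' (by omega), mul_zero, zero_add] at this
    by_cases hKr : r < K
    · refine S.weak_all hG (k := K) (fun b hb e => ?_) hZ c hc (by omega)
      have := S.deg_le hb
      omega
    refine (hT K (Finset.mem_Icc.2 ⟨by omega, by omega⟩)).dual (fun c hc => ?_) (fun ψ' hψ' => ?_)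
      c hc (by omega)
    · obtain ⟨c1, c2, c3⟩ := S.mem_DK.1 hc
      obtain ⟨h5, h6, -⟩ := S.sel_mem c1 c3
      exact S.rho_eq_zero c1 c3 (hZ _ h5 (by rw [h6, c2]))
    obtain ⟨ψ, h1, h2⟩ := S.neg.exists_sol hG' (-β) fun b => if deg b = r - K then ψ' b else 0
    have h3 := S.neg.vanish hG' h1 (k := r - K) fun b hb e => by rw [h2 b hb, if_neg e.ne]
    have h4 := hG' (r - K) (Finset.mem_Icc.2 ⟨by omega, by omega⟩) (ψ - ψ')
      (fun b hb e => by simp [h2 b hb, e]) fun d hd => by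
        obtain ⟨c1, c2, c3⟩ := S.neg.mem_DK.1 hd
        obtain ⟨h5, h6, -⟩ := S.neg.sel_mem c1 c3
        have e1 := S.neg.rho_eq_zero c1 c3 (x := x) (u := ψ) fun j => by
          have := h1 _ h5 j
          rwa [h3 _ h5 (by omega), mul_zero, zero_add] at this
        have e2 := hψ' d hd
        have e3 : rho v h (-p) x d (ψ - ψ') = rho v h (-p) x d ψ - rho v h (-p) x d ψ' := by
          simp [rho, mul_sub]
        rw [e3, e1, e2, sub_zero]
    have h5 := hP ψ h1
    unfold Pm at h5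
    simp only [S.sum_cond] at h5
    rw [← Finset.sum_subset (s₁ := LK v deg (-p) (r - K)) (fun d hd => by
      have := S.neg.mem_LK.1 hd
      exact S.neg.mem_LE.2 ⟨this.1, by omega⟩) (fun d _ hd => Finset.sum_eq_zero fun I _ => by
        split_ifs with hI
        · have e := S.cond_deg hI
          have : deg d ≠ r - K := fun e' => hd (S.neg.mem_LK.2 ⟨hI.mem.2, e'⟩)
          rcases lt_or_gt_of_ne this with h6 | h6
          · rw [h3 d hI.mem.2 h6, mul_zero]
          · rw [ih _ hI.mem.1 (by omega), mul_zero, zero_mul]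
        · rfl)] at h5
    refine (mul_eq_zero.1 (Eq.trans ?_ h5)).resolve_left (hσ K (r - K))
    rw [Finset.mul_sum]
    refine Finset.sum_congr rfl fun d hd => ?_
    have hd' := S.neg.mem_LK.1 hd
    rw [om, Finset.sum_mul, Finset.mul_sum]
    refine Finset.sum_congr rfl fun I _ => ?_
    split_ifs with hI
    · have e := S.cond_deg hI
      have e1 : deg (∑ i ∈ I.1, v i - d) = K := by omega
      have e2 : ψ d = ψ' d := sub_eq_zero.1 (h4 d hd'.1 hd'.2)
      rw [e1, hd'.2, e2]; ring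
    · simp

theorem Setup.generic (S : Setup v deg h p) :
    ∃ E : MvPolynomial (Fin n) ℂ, E ≠ 0 ∧ ∀ x, eval x E ≠ 0 →
      (GG v deg h p x ∧ ∀ k ∈ Finset.Icc (0 : ℤ) r, TT v deg h p x k) :=
  generic_and (generic_all _ _ fun k _ => S.generic_G1 k) (generic_all _ _ fun k _ => S.generic_TT k)

end Pool.Agent.Lib.MP_9d4c03_ag
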