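import Mathlib
import Pool.Agent.Lib.MP_9d4c03_ag.Pair
import Pool.Agent.Lib.MP_9d4c03_ag.Ana

/-!
From the cone, its interior and the point in general position to the shifted cones.
-/

set_option autoImplicit false

namespace Pool.Agent.Lib.MP_9d4c03_ag

open Filter Topology Matrix MvPolynomial Metric

variable {r n : ℕ} {v : Fin n → Fin r → ℤ} {deg : (Fin r → ℤ) →ₗ[ℤ] ℤ} {h : Fin n → ℝ}
  {p w : Fin r → ℝ}

lemma smul_mem_cone {y : Fin r → ℝ} (hy : y ∈ coneOn v Finset.univ) {t : ℝ} (ht : 0 ≤ t) :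
    t • y ∈ coneOn v Finset.univ := by
  obtain ⟨a, ha, rfl⟩ := hy
  exact ⟨t • a, fun i => mul_nonneg ht (ha i), by simp [Finset.smul_sum, smul_smul]⟩

lemma span_of_interior (hw : w ∈ interior (coneOn v Finset.univ)) :
    Submodule.span ℝ (Set.range fun i => toR (v i)) = ⊤ := by
  refine Submodule.eq_top_of_nonempty_interior' _ ⟨w, interior_mono ?_ hw⟩
  rintro y ⟨a, -, rfl⟩
  exact Submodule.sum_mem _ fun i _ => Submodule.smul_mem _ _ (Submodule.subset_span ⟨i, rfl⟩)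

lemma GeneralPosition.generic (hw : GeneralPosition v w) : Generic v w := by
  classical
  intro I hB a e
  have hr : 0 < r := a.pos
  refine hw (I.1.erase (emb I a)) (by rw [Finset.card_erase_of_mem (emb_mem I a), I.2]; omega) ?_
  rw [← co_sum hB w]
  refine Submodule.sum_mem _ fun b _ => ?_
  by_cases hb : b = a
  · rw [hb, e, zero_smul]; exact Submodule.zero_mem _
  · exact Submodule.smul_mem _ _ (Submodule.subset_span ⟨emb I b,
      Finset.mem_coe.2 (Finset.mem_erase.2 ⟨(emb_inj I).ne hb, emb_mem I b⟩), rfl⟩)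

lemma Generic.neg (hw : Generic v w) : Generic v (-w) := fun I hB a => by
  rw [map_neg]; exact neg_ne_zero.2 (hw I hB a)

/-- `ε₀ w` is small compared with the lattice -/
def Small (v : Fin n → Fin r → ℤ) (w : Fin r → ℝ) (ε₀ : ℝ) : Prop :=
  0 < ε₀ ∧ ∀ I a, ε₀ * |co v I w a * ((mat v I).det : ℝ)| < 1

lemma exists_small : ∃ ε₀, Small v w ε₀ := by
  have : ∀ᶠ ε in 𝓝[>] (0 : ℝ), ∀ I a, ε * |co v I w a * ((mat v I).det : ℝ)| < 1 := by
    simp only [eventually_all]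
    intro I a
    have hc : Continuous fun ε : ℝ => ε * |co v I w a * ((mat v I).det : ℝ)| := by fun_prop
    exact (hc.continuousAt.eventually (gt_mem_nhds (by simp))).filter_mono nhdsWithin_le_nhds
  obtain ⟨ε, h1, h2⟩ := (this.and self_mem_nhdsWithin).exists
  exact ⟨ε, h2, h1⟩

lemma Small.neg {ε₀ : ℝ} (hs : Small v w ε₀) : Small v (-w) ε₀ :=
  ⟨hs.1, fun I a => by simpa using hs.2 I a⟩

lemma Small.mono {ε₀ ε : ℝ} (hs : Small v w ε₀) (h1 : 0 < ε) (h2 : ε ≤ ε₀) : Small v w ε :=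
  ⟨h1, fun I a => (mul_le_mul_of_nonneg_right h2 (abs_nonneg _)).trans_lt (hs.2 I a)⟩

lemma Small.lt {ε : ℝ} (hs : Small v w ε) {I : Sub r n} (hB : IsB v I) (c : Fin r → ℤ) (a : Fin r)
    (h0 : co v I (toR c) a ≠ 0) : |ε * co v I w a| < |co v I (toR c) a| := by
  obtain ⟨z, hz⟩ := co_int hB c a
  have hd : ((mat v I).det : ℝ) ≠ 0 := by exact_mod_cast hB
  have hz0 : z ≠ 0 := by
    rintro rfl
    exact mul_ne_zero h0 hd (by simpa using hz)
  have h1 : (1 : ℝ) ≤ |(z : ℝ)| := by exact_mod_cast Int.one_le_abs hz0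
  have h2 := hs.2 I a
  rw [← hz, abs_mul] at h1
  rw [abs_mul, ← mul_assoc] at h2
  rw [abs_mul, abs_of_pos hs.1]
  exact lt_of_mul_lt_mul_right (h2.trans_le h1) (abs_nonneg _)

lemma Small.pos_iff {ε : ℝ} (hs : Small v w ε) {I : Sub r n} (hB : IsB v I) (c : Fin r → ℤ)
    (a : Fin r) : 0 < co v I (toR c + ε • w) a ↔
      0 < co v I (toR c) a ∨ (co v I (toR c) a = 0 ∧ 0 < co v I w a) := by
  rw [map_add, map_smul, Pi.add_apply, Pi.smul_apply, smul_eq_mul]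
  by_cases h0 : co v I (toR c) a = 0
  · simp [h0, hs.1]
  · have h1 := abs_lt.1 (hs.lt hB c a h0)
    simp only [h0, false_and, or_false]
    rcases lt_or_gt_of_ne h0 with h2 | h2
    · rw [abs_of_neg h2] at h1
      exact ⟨fun h3 => by linarith [h1.2], fun h3 => by linarith⟩
    · rw [abs_of_pos h2] at h1
      exact ⟨fun _ => h2, fun _ => by linarith [h1.1]⟩

lemma Small.generic {ε : ℝ} (hs : Small v w ε) (hw : Generic v w) (c : Fin r → ℤ) :
    Generic v (toR c + ε • w) := by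
  intro I hB a
  rw [map_add, map_smul, Pi.add_apply, Pi.smul_apply, smul_eq_mul]
  by_cases h0 : co v I (toR c) a = 0
  · rw [h0, zero_add]; exact mul_ne_zero hs.1.ne' (hw I hB a)
  · intro e
    have h1 := hs.lt hB c a h0
    rw [eq_neg_of_add_eq_zero_right e, abs_neg] at h1
    exact lt_irrefl _ h1

lemma Small.pos_congr {ε ε' : ℝ} (hs : Small v w ε) (hs' : Small v w ε') {I : Sub r n}
    (hB : IsB v I) (c : Fin r → ℤ) : Pos v I (toR c + ε • w) ↔ Pos v I (toR c + ε' • w) :=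
  forall_congr' fun a => by rw [hs.pos_iff hB, hs'.pos_iff hB]

lemma Small.nn {ε : ℝ} (hs : Small v w ε) (hw : Generic v w) (hdeg : ∀ i, deg (v i) = 1)
    (hspan : Submodule.span ℝ (Set.range fun i => toR (v i)) = ⊤) (c : Fin r → ℤ)
    (hc : toR c + ε • w ∈ coneOn v Finset.univ) : toR c ∈ coneOn v Finset.univ := by
  obtain ⟨h, hh⟩ := exists_genH (v := v)
  obtain ⟨I, h1, h2⟩ := exists_good (δ := degR deg) (fun i => by rw [degR_toR, hdeg]; simp) hspan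
    hh hc (hs.generic hw c)
  refine coneOn_mono (Finset.subset_univ _) ((mem_coneOn_iff h1.1).2 fun a => ?_)
  rcases (hs.pos_iff h1.1 c a).1 (h2 a) with h3 | h3
  exacts [h3.le, h3.1.ge]

lemma Small.setup {ε : ℝ} (hs : Small v w ε) (hw : Generic v w) (hdeg : ∀ i, deg (v i) = 1)
    (hspan : Submodule.span ℝ (Set.range fun i => toR (v i)) = ⊤) (hh : GenH v h) :
    Setup v deg h (ε • w) where
  hdeg := hdeg
  hspan := hspan
  hgen := hh
  hp := hs.generic hw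
  hnn := hs.nn hw hdeg hspan
  hnn' := fun c hc => hs.neg.nn hw.neg hdeg hspan c (by rwa [smul_neg])

lemma Small.mem_LL {ε : ℝ} (hs : Small v w ε) (S : Setup v deg h (ε • w))
    (hw : w ∈ interior (coneOn v Finset.univ)) (c : Fin r → ℤ) :
    toR c ∈ coneOn v Finset.univ ↔ c ∈ LL v (ε • w) :=
  ⟨fun hc => add_mem_cone hc (smul_mem_cone (interior_subset hw) hs.1.le), S.hnn c⟩

lemma Small.mem_LL' {ε : ℝ} (hs : Small v w ε) (S : Setup v deg h (ε • w)) (hg : Generic v w)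
    (hw : w ∈ interior (coneOn v Finset.univ)) (d : Fin r → ℤ) :
    toR d ∈ interior (coneOn v Finset.univ) ↔ d ∈ LL v (-(ε • w)) := by
  constructor
  · intro hd
    have hc : Continuous fun t : ℝ => toR d + t • -w := by fun_prop
    have h1 : ∀ᶠ t in 𝓝[>] (0 : ℝ), toR d + t • -w ∈ coneOn v Finset.univ :=
      (hc.continuousAt.eventually_mem (by simpa using mem_interior_iff_mem_nhds.1 hd)).filter_mono
        nhdsWithin_le_nhds
    obtain ⟨t, h2, h3⟩ := (h1.and (Ioc_mem_nhdsGT hs.1)).exists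
    have hs' := hs.neg.mono h3.1 h3.2
    obtain ⟨I, h4, h5⟩ := exists_good (δ := degR deg) (fun i => by rw [degR_toR, S.hdeg]; simp)
      S.hspan S.hgen h2 (hs'.generic hg.neg d)
    rw [hs'.pos_congr hs.neg h4.1, smul_neg] at h5
    exact Sg.mem ⟨h4, h5⟩
  · intro hd
    have hc : Continuous fun y : Fin r → ℝ => ε⁻¹ • (y - (toR d + -(ε • w))) := by fun_prop
    have h1 := hc.continuousAt (x := toR d) |>.eventually_mem (s := coneOn v Finset.univ) (by
      simpa [smul_smul, hs.1.ne'] using mem_interior_iff_mem_nhds.1 hw)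
    refine mem_interior_iff_mem_nhds.2 (h1.mono fun y hy => ?_)
    have := add_mem_cone hd (smul_mem_cone hy hs.1.le)
    rwa [smul_smul, mul_inv_cancel₀ hs.1.ne', one_smul, add_sub_cancel] at this

lemma mem_interior_iff {I : Sub r n} (hB : IsB v I) {y : Fin r → ℝ} :
    y ∈ interior (coneOn v I.1) ↔ Pos v I y := by
  have hco : Continuous (co v I) := (co v I).continuous_of_finiteDimensional
  constructor
  · intro hy a
    have hc : Continuous fun t : ℝ => y - t • toR (v (emb I a)) := by fun_prop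
    have h1 : ∀ᶠ t in 𝓝[>] (0 : ℝ), y - t • toR (v (emb I a)) ∈ coneOn v I.1 :=
      (hc.continuousAt.eventually_mem (by simpa using mem_interior_iff_mem_nhds.1 hy)).filter_mono
        nhdsWithin_le_nhds
    obtain ⟨t, h2, h3⟩ := (h1.and self_mem_nhdsWithin).exists
    have h4 := (mem_coneOn_iff hB).1 h2 a
    rw [map_sub, map_smul, co_emb hB] at h4
    simp only [Pi.sub_apply, Pi.smul_apply, Pi.single_eq_same, smul_eq_mul, mul_one] at h4
    exact lt_of_lt_of_le h3 (by linarith)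
  · intro hy
    have h1 : ∀ᶠ z in 𝓝 y, ∀ a, 0 < co v I z a := eventually_all.2 fun a =>
      ((continuous_apply a).comp hco).continuousAt.eventually (lt_mem_nhds (hy a))
    exact mem_interior_iff_mem_nhds.2 (h1.mono fun z hz => (mem_coneOn_iff hB).2 fun a => (hz a).le)

lemma span_cone_iff (I : Sub r n) : Submodule.span ℝ (coneOn v I.1) = ⊤ ↔ IsB v I := by
  constructor
  · intro hI
    have h1 : Function.Surjective fun g => g ᵥ* matR v I := by
      intro y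
      have : Submodule.span ℝ (coneOn v I.1) ≤ LinearMap.range (Matrix.vecMulLinear (matR v I)) := by
        rw [Submodule.span_le]
        rintro _ ⟨a, -, rfl⟩
        refine ⟨fun b => a (emb I b), ?_⟩
        rw [Matrix.vecMulLinear_apply, vecMul_matR, sum_emb I fun i => a i • toR (v i)]
      exact this (hI ▸ Submodule.mem_top)
    rw [Matrix.vecMul_surjective_iff_isUnit, Matrix.isUnit_iff_isUnit_det, det_matR,
      isUnit_iff_ne_zero] at h1
    exact_mod_cast h1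
  · intro hB
    rw [eq_top_iff]
    intro y _
    rw [← co_sum hB y]
    refine Submodule.sum_mem _ fun a _ => Submodule.smul_mem _ _ (Submodule.subset_span ?_)
    rw [mem_coneOn_iff hB, co_emb hB]
    intro b
    rw [Pi.single_apply]
    split_ifs <;> norm_num

open Classical in
lemma Small.xi_eq {ε : ℝ} (hs : Small v w ε) (I : Sub r n) (c : Fin r → ℤ) :
    xi v deg w c (∑ i ∈ I.1, v i - c) I.1 =
      if Cond v (-(ε • w)) I (∑ i ∈ I.1, v i - c) c then (-1 : ℂ) ^ (deg c) else 0 := by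
  unfold xi
  refine if_congr ?_ rfl rfl
  rw [span_cone_iff]
  refine and_congr_right fun hB => ?_
  have key : ∀ t ∈ Set.Ioc 0 ε, (toR c + t • w ∈ interior (coneOn v I.1) ∧
      toR (∑ i ∈ I.1, v i - c) - t • w ∈ interior (coneOn v I.1)) ↔
      (∑ i ∈ I.1, v i - c + c = ∑ i ∈ I.1, v i ∧ Pos v I (toR (∑ i ∈ I.1, v i - c) + -(ε • w)) ∧
        Pos v I (toR c + - -(ε • w))) := by
    intro t ht
    rw [mem_interior_iff hB, mem_interior_iff hB, neg_neg, sub_eq_add_neg (toR _), ← smul_neg,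
      ← smul_neg, (hs.mono ht.1 ht.2).pos_congr hs hB, (hs.neg.mono ht.1 ht.2).pos_congr hs.neg hB]
    simp [and_comm]
  constructor
  · intro hh
    obtain ⟨t, h1, h2⟩ := (hh.and (Ioc_mem_nhdsGT hs.1)).exists
    exact (key t h2).1 h1
  · intro hh
    filter_upwards [Ioc_mem_nhdsGT hs.1] with t ht using (key t ht).2 hh

lemma Small.pairing_eq {ε : ℝ} (hs : Small v w ε) (S : Setup v deg h (ε • w)) (hg : Generic v w)
    (hw : w ∈ interior (coneOn v Finset.univ)) (Φ Ψ : (Fin r → ℤ) → (Fin n → ℂ) → ℂ)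
    (x : Fin n → ℂ) : pairing v deg w Φ Ψ x =
      Pm v deg (ε • w) (fun a _ => (-1 : ℂ) ^ a) x (fun c => Φ c x) (fun d => Ψ d x) := by
  classical
  rw [← Pm_symm]
  unfold Pm pairing
  simp only [S.neg.sum_cond]
  rw [Finset.sum_comm, neg_neg, Finset.sum_subtype (p := fun I : Finset (Fin n) => I.card = r)
    (F := inferInstance) _ (by simp)]
  refine Finset.sum_congr rfl fun I _ => ?_
  simp only [hs.xi_eq]
  rw [finsum_mem_eq_sum_of_inter_support_eq (t := LE v deg (ε • w))]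
  · refine Finset.sum_congr rfl fun c _ => ?_
    split_ifs
    · ring
    · simp
  · have : ∀ c, c ∈ Function.support (fun c => (if Cond v (-(ε • w)) I (∑ i ∈ I.1, v i - c) c then
        (-1 : ℂ) ^ (deg c) else 0) * (vol v I.1 : ℂ) * (∏ i ∈ I.1, x i) * Φ c x *
        Ψ (∑ i ∈ I.1, v i - c) x) → Cond v (-(ε • w)) I (∑ i ∈ I.1, v i - c) c := by
      intro c hc
      by_contra hn
      simp [hn] at hc
    rw [Set.inter_eq_right.2, Set.inter_eq_right.2]
    · intro c hc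
      have h1 := this c hc
      have h2 := h1.mem
      rw [neg_neg] at h2
      refine S.mem_LE.2 ⟨h2.2, ?_⟩
      linarith [S.neg.cond_deg h1, S.neg.deg_nonneg h2.1]
    · intro c hc
      have h2 := (this c hc).mem
      rw [neg_neg] at h2
      exact ⟨(hs.mem_LL S hw c).2 h2.2, (hs.mem_LL' S hg hw _).2 h2.1⟩

lemma IsSolution.eqS {A : Set (Fin r → ℝ)} (hA : ∀ c, toR c ∈ A ↔ c ∈ LL v p) {β : Fin r → ℂ}
    {U : Set (Fin n → ℂ)} {Φ : (Fin r → ℤ) → (Fin n → ℂ) → ℂ} (hΦ : IsSolution v A β U Φ)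
    {x : Fin n → ℂ} (hx : x ∈ U) : EqS v p β x fun c => Φ c x := by
  intro c hc j
  obtain ⟨-, h2, h3⟩ := hΦ c ((hA c).2 hc)
  have := h3 x hx (Pi.single j 1)
  simp only [h2 x hx] at this
  simpa [ZZ, Pi.single_apply] using this

lemma Setup.exists_isSolution (S : Setup v deg h p) {A : Set (Fin r → ℝ)}
    (hA : ∀ c, toR c ∈ A ↔ c ∈ LL v p) {x₀ : Fin n → ℂ} (hG : GG v deg h p x₀) :
    ∃ ρ₀ : ℝ, 0 < ρ₀ ∧ ∀ ρ, 0 < ρ → ρ ≤ ρ₀ → ∀ β u, EqS v p β x₀ u →
      ∃ Φ, IsSolution v A β (ball x₀ ρ) Φ ∧ ∀ c ∈ LL v p, Φ c x₀ = u c := by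
  obtain ⟨C, hC, hg⟩ := S.growth hG
  refine ⟨((n + 1) * C)⁻¹, by positivity, fun ρ h1 h2 β u hu => ?_⟩
  obtain ⟨B, hB, hb⟩ := hg β u hu
  have h3 : n * ρ * C < 1 := by
    have h3 := mul_le_mul_of_nonneg_right h2 (show 0 ≤ ((n : ℝ) + 1) * C by positivity)
    rw [inv_mul_cancel₀ (by positivity)] at h3
    nlinarith [mul_pos h1 hC]
  obtain ⟨Φ, hΦ⟩ := exist (L := LL v p) (fun c hc i => LL_add hc i) S.hdeg
    (fun c hc => S.deg_nonneg hc) hB hC h1 h3 hb x₀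
  refine ⟨Φ, fun c hc => ?_, fun c hc => (hΦ c hc).2.2⟩
  have hc' := (hA c).1 hc
  refine ⟨(hΦ c hc').1, (hΦ c hc').2.1, fun x hx μ => ?_⟩
  have h4 := fun j => euler (L := LL v p) (β := β) (fun c hc i => LL_add hc i)
    (fun c hc => (hΦ c hc).1) (fun c hc => (hΦ c hc).2.1) j (fun c hc => by
      have := hu c hc j
      simp only [(hΦ c hc).2.2, fun i => (hΦ _ (LL_add hc i)).2.2]
      exact this) c hc' x hx
  simp only [(hΦ c hc').2.1 x hx]
  have h5 : ∑ j, (μ j : ℂ) * (((c j : ℂ) - β j) * Φ c x +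
      ∑ i, (v i j : ℂ) * x i * Φ (c + v i) x) = 0 := by simp [h4]
  rw [← h5]
  simp only [mul_add, Finset.sum_add_distrib, Finset.sum_mul, Finset.mul_sum]
  push_cast
  simp only [Finset.sum_mul]
  rw [Finset.sum_comm (f := fun i j => (μ j : ℂ) * v i j * x i * Φ (c + v i) x)]
  simp only [mul_assoc]

lemma Setup.Pm_congr (S : Setup v deg h p) (σ : ℤ → ℤ → ℂ) (x : Fin n → ℂ)
    (u : (Fin r → ℤ) → ℂ) {ψ ψ' : (Fin r → ℤ) → ℂ} (e : ∀ d ∈ LL v (-p), ψ d = ψ' d) :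
    Pm v deg p σ x u ψ = Pm v deg p σ x u ψ' :=
  Finset.sum_congr rfl fun d hd => by rw [e d (S.neg.mem_LE.1 hd).1]

theorem Setup.side (S : Setup v deg h p) {A A' : Set (Fin r → ℝ)}
    (hA : ∀ c, toR c ∈ A ↔ c ∈ LL v p) (hA' : ∀ c, toR c ∈ A' ↔ c ∈ LL v (-p)) {x₀ : Fin n → ℂ}
    (hG : GG v deg h p x₀) (hG' : GG v deg h (-p) x₀)
    (hT : ∀ k ∈ Finset.Icc (0 : ℤ) r, TT v deg h p x₀ k) {σ : ℤ → ℤ → ℂ} (hσ : ∀ a b, σ a b ≠ 0) :
    ∃ ρ₀ : ℝ, 0 < ρ₀ ∧ ∀ ρ, 0 < ρ → ρ ≤ ρ₀ → ∀ β Φ, IsSolution v A β (ball x₀ ρ) Φ →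
      (∀ Ψ, IsSolution v A' (-β) (ball x₀ ρ) Ψ →
        Pm v deg p σ x₀ (fun c => Φ c x₀) (fun d => Ψ d x₀) = 0) → VanishesOn A (ball x₀ ρ) Φ := by
  obtain ⟨ρ₀, h0, h1⟩ := S.neg.exists_isSolution hA' hG'
  refine ⟨ρ₀, h0, fun ρ h2 h3 β Φ hΦ hP c hc => ?_⟩
  refine uniq (v := v) (L := LL v p) (fun c hc i => LL_add hc i)
    (fun c hc => (hΦ c ((hA c).2 hc)).1) (fun c hc => (hΦ c ((hA c).2 hc)).2.1) ?_ c ((hA c).1 hc)
  refine S.nondeg hG hG' hT hσ (hΦ.eqS hA (mem_ball_self h2)) fun ψ hψ => ?_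
  obtain ⟨Ψ, h4, h5⟩ := h1 ρ h2 h3 _ ψ hψ
  rw [← hP Ψ h4]
  exact S.Pm_congr _ _ _ fun d hd => (h5 d hd).symm

theorem main (hdeg : ∀ i, deg (v i) = 1) (hw : w ∈ interior (coneOn v Finset.univ))
    (hg : GeneralPosition v w) :
    ∃ E : MvPolynomial (Fin n) ℂ, E ≠ 0 ∧ ∀ x₀, eval x₀ E ≠ 0 → ∃ ρ₀ : ℝ, 0 < ρ₀ ∧
      ∀ ρ, 0 < ρ → ρ ≤ ρ₀ → ∀ β : Fin r → ℂ,
        (∀ Φ, IsSolution v (coneOn v Finset.univ) β (ball x₀ ρ) Φ →
          (∀ Ψ, IsSolution v (interior (coneOn v Finset.univ)) (-β) (ball x₀ ρ) Ψ →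
            pairing v deg w Φ Ψ x₀ = 0) → VanishesOn (coneOn v Finset.univ) (ball x₀ ρ) Φ) ∧
        ∀ Ψ, IsSolution v (interior (coneOn v Finset.univ)) (-β) (ball x₀ ρ) Ψ →
          (∀ Φ, IsSolution v (coneOn v Finset.univ) β (ball x₀ ρ) Φ →
            pairing v deg w Φ Ψ x₀ = 0) →
          VanishesOn (interior (coneOn v Finset.univ)) (ball x₀ ρ) Ψ := by
  obtain ⟨h, hh⟩ := exists_genH (v := v)
  obtain ⟨ε, hs⟩ := exists_small (v := v) (w := w)
  have S := hs.setup hg.generic hdeg (span_of_interior hw) hh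
  obtain ⟨E, h1, h2⟩ := generic_and S.generic S.neg.generic
  refine ⟨E, h1, fun x₀ hx => ?_⟩
  obtain ⟨⟨a1, a2⟩, a3, a4⟩ := h2 x₀ hx
  have hσ : ∀ a : ℤ, (-1 : ℂ) ^ a ≠ 0 := fun a => zpow_ne_zero _ (by norm_num)
  obtain ⟨ρ₁, b1, b2⟩ := S.side (hs.mem_LL S hw) (hs.mem_LL' S hg.generic hw) a1 a3 a2
    (σ := fun a _ => (-1 : ℂ) ^ a) fun a _ => hσ a
  obtain ⟨ρ₂, c1, c2⟩ := S.neg.side (A' := coneOn v Finset.univ) (hs.mem_LL' S hg.generic hw)
    (by rw [neg_neg]; exact hs.mem_LL S hw) a3 (by rw [neg_neg]; exact a1) a4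
    (σ := fun _ a => (-1 : ℂ) ^ a) fun _ a => hσ a
  refine ⟨min ρ₁ ρ₂, lt_min b1 c1, fun ρ d1 d2 β => ⟨fun Φ hΦ hP => ?_, fun Ψ hΨ hP => ?_⟩⟩
  · refine b2 ρ d1 (d2.trans (min_le_left _ _)) β Φ hΦ fun Ψ hΨ => ?_
    rw [← hs.pairing_eq S hg.generic hw, hP Ψ hΨ]
  · refine c2 ρ d1 (d2.trans (min_le_right _ _)) (-β) Ψ hΨ fun Φ hΦ => ?_
    rw [neg_neg] at hΦ
    rw [Pm_symm (fun a _ => (-1 : ℂ) ^ a), ← hs.pairing_eq S hg.generic hw, hP Φ hΦ]

end Pool.Agent.Lib.MP_9d4c03_ag
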